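import Pool.Agent.L5helper57.OX.Median
import Pool.Agent.L5helper57.OW.MainA

/-!
# No one-way function maps pairs at distance two to pairs at distance one
-/

set_option autoImplicit false

namespace Pool.Agent.NPC.L5h57.OX

open Pool.Agent.NPC Pool.Agent.L5helper57.OX Pool.Agent.NPC.L5h57.OW Finset Filter

theorem exists_update {m : ℕ} {u v : Fin m → Bool} (h : hammingDist u v ≤ 1) (hne : u ≠ v) :
    ∃ i, u i ≠ v i ∧ ∀ k, k ≠ i → u k = v k := by
  obtain ⟨i, hi⟩ := Function.ne_iff.1 hne
  refine ⟨i, hi, fun k hk => ?_⟩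
  by_contra hk2
  unfold hammingDist at h
  rw [Finset.card_le_one] at h
  exact hk (h k (by simpa using hk2) i (by simpa using hi))

/-- Three points of the cube at pairwise distances at most one. -/
theorem two_of_three {m : ℕ} {u v w : Fin m → Bool} (h1 : hammingDist u v ≤ 1)
    (h2 : hammingDist u w ≤ 1) (h3 : hammingDist v w ≤ 1) : u = v ∨ u = w ∨ v = w := by
  by_contra hcon
  push Not at hcon
  obtain ⟨huv, huw, hvw⟩ := hcon
  obtain ⟨i, hi, hi2⟩ := exists_update h1 huv
  obtain ⟨j, hj, hj2⟩ := exists_update h2 huw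
  obtain ⟨l, hl, hl2⟩ := exists_update h3 hvw
  by_cases hij : i = j
  · subst hij
    apply hvw
    funext k
    by_cases hk : k = i
    · subst hk
      revert hi hj
      cases u k <;> cases v k <;> cases w k <;> simp
    · rw [← hi2 k hk, hj2 k hk]
  · have e1 : v i ≠ w i := by
      rw [← hj2 i hij]
      exact Ne.symm hi
    have e2 : v j ≠ w j := by
      rw [← hi2 j (Ne.symm hij)]
      exact hj
    have f1 : i = l := by
      by_contra h
      exact e1 (hl2 i h)
    have f2 : j = l := by
      by_contra h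
      exact e2 (hl2 j h)
    exact hij (f1.trans f2.symm)

theorem dist_le_two {n : ℕ} {p q : Fin n → Bool} {i j : Fin n}
    (h : ∀ k, k ≠ i → k ≠ j → p k = q k) : hammingDist p q ≤ 2 := by
  unfold hammingDist
  refine (Finset.card_le_card (t := {i, j}) fun k hk => ?_).trans Finset.card_le_two
  rw [Finset.mem_filter] at hk
  by_contra hcon
  rw [Finset.mem_insert, Finset.mem_singleton, not_or] at hcon
  exact hk.2 (h k hcon.1 hcon.2)

theorem sq_of_lip {n m : ℕ} {g : (Fin n → Bool) → (Fin m → Bool)}
    (h : ∀ x y, hammingDist x y ≤ 2 → hammingDist (g x) (g y) ≤ 1) : Sq g := by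
  intro x i j b c
  have key : ∀ p q : Fin n → Bool, (∀ k, k ≠ i → k ≠ j → p k = q k) →
      hammingDist (g p) (g q) ≤ 1 := fun p q hpq => h p q (dist_le_two hpq)
  have e1 : ∀ k, k ≠ i → k ≠ j → x k = Function.update x i b k := fun k hk _ => by
    rw [Function.update_of_ne hk]
  have e2 : ∀ k, k ≠ i → k ≠ j → x k = Function.update x j c k := fun k _ hk => by
    rw [Function.update_of_ne hk]
  have e3 : ∀ k, k ≠ i → k ≠ j → x k = Function.update (Function.update x i b) j c k :=
    fun k hk hk2 => by rw [Function.update_of_ne hk2, Function.update_of_ne hk]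
  have e12 : ∀ k, k ≠ i → k ≠ j → Function.update x i b k = Function.update x j c k :=
    fun k hk hk2 => (e1 k hk hk2).symm.trans (e2 k hk hk2)
  have e13 : ∀ k, k ≠ i → k ≠ j →
      Function.update x i b k = Function.update (Function.update x i b) j c k :=
    fun k hk hk2 => (e1 k hk hk2).symm.trans (e3 k hk hk2)
  have e23 : ∀ k, k ≠ i → k ≠ j →
      Function.update x j c k = Function.update (Function.update x i b) j c k :=
    fun k hk hk2 => (e2 k hk hk2).symm.trans (e3 k hk hk2)
  intro S hS
  simp only [List.mem_cons, List.not_mem_nil, or_false] at hS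
  rcases hS with rfl | rfl | rfl | rfl
  · exact two_of_three (key _ _ e1) (key _ _ e2) (key _ _ e12)
  · exact two_of_three (key _ _ e1) (key _ _ e3) (key _ _ e13)
  · exact two_of_three (key _ _ e2) (key _ _ e3) (key _ _ e23)
  · exact two_of_three (key _ _ e12) (key _ _ e13) (key _ _ e23)

/-- the guesser -/
def guess (w : List Bool) : List Bool := slice w (nOf w + 1) (nOf w)

theorem polyTime_guess : PolyTime guess := by
  refine H622R2.polyTime_of_poly_list ?_
  have h := uPoly_nOf.toPoly
  exact poly_slice NPC.Poly.id (by fun_prop) uPoly_nOf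

theorem guess_spec {n : ℕ} (r y : List Bool) (hr : r.length = n) :
    guess (List.replicate n true ++ false :: (r ++ y)) = r := by
  unfold guess
  rw [nOf_eq]
  have e : List.replicate n true ++ false :: (r ++ y) =
      (List.replicate n true ++ [false]) ++ (r ++ y) := by simp
  rw [e]
  exact slice_append' _ _ _ (by simp) hr.symm

/-- Two independent random inputs have the same value with probability at least
`1 / (4 (n + 1) ^ 2)`. -/
theorem invCount_guess {f : List Bool → List Bool} {n m : ℕ}
    {g : (Fin n → Bool) → (Fin m → Bool)} (hf : ∀ x, f (List.ofFn x) = List.ofFn (g x))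
    (h : ∀ x y, hammingDist x y ≤ 2 → hammingDist (g x) (g y) ≤ 1) :
    2 ^ (n + n) ≤ 4 * (n + 1) ^ 2 * invCount f guess n n := by
  have h1 := heavy_pairs (sq_of_lip h)
  have h2 : invCount f guess n n =
      ((univ : Finset ((Fin n → Bool) × (Fin n → Bool))).filter fun p => g p.2 = g p.1).card := by
    unfold invCount
    congr 1
    apply Finset.filter_congr
    intro p _
    rw [guess_spec _ _ (by simp), hf, hf]
    exact ⟨fun e => List.ofFn_injective e, fun e => by rw [e]⟩
  rw [h2, pow_add]
  exact h1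

/-- **The barrier.** -/
theorem not_oneWay {f : List Bool → List Bool} {m : ℕ → ℕ}
    {g : (n : ℕ) → (Fin n → Bool) → (Fin (m n) → Bool)}
    (hf : ∀ n x, f (List.ofFn x) = List.ofFn (g n x))
    (h : ∀ n x y, hammingDist x y ≤ 2 → hammingDist (g n x) (g n y) ≤ 1) : ¬ OneWay f := by
  intro how
  have h1 := how.2 guess polyTime_guess Polynomial.X 4
  obtain ⟨n, hn, hn2⟩ := (h1.and (eventually_ge_atTop 4)).exists
  rw [Polynomial.eval_X] at hn
  have h2 := invCount_guess (hf n) (h n)
  have h3 : 4 * (n + 1) ^ 2 ≤ n ^ 4 := by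
    have h5 : (n + 1) ^ 2 ≤ (2 * n) ^ 2 := Nat.pow_le_pow_left (by omega) 2
    have h6 : 16 ≤ n ^ 2 := by nlinarith
    calc 4 * (n + 1) ^ 2 ≤ 4 * (2 * n) ^ 2 := Nat.mul_le_mul_left _ h5
      _ = 16 * n ^ 2 := by ring
      _ ≤ n ^ 2 * n ^ 2 := Nat.mul_le_mul_right _ h6
      _ = n ^ 4 := by ring
  have h4 : 4 * (n + 1) ^ 2 * invCount f guess n n ≤ invCount f guess n n * n ^ 4 := by
    rw [mul_comm]
    exact Nat.mul_le_mul_left _ h3
  omega

end Pool.Agent.NPC.L5h57.OX
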