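import Pool.Agent.L5helper57.OX.Tree

/-!
# A map of the cube which shrinks squares to edges has a heavy fibre
-/

set_option autoImplicit false

namespace Pool.Agent.L5helper57.OX

open Finset

variable {α : Type} [DecidableEq α] {n : ℕ}

/-- the first `k` coordinates of `x`, the others of `y` -/
def mixk (k : ℕ) (x y : Fin n → Bool) : Fin n → Bool := fun i => if (i : ℕ) < k then x i else y i

/-- the constant `false` -/
def zz : Fin n → Bool := fun _ => false

/-- The values at the vertices of every square (possibly degenerate) are only two. -/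
def Sq (g : (Fin n → Bool) → α) : Prop := ∀ (x : Fin n → Bool) (i j : Fin n) (b c : Bool),
  Two (g x) (g (Function.update x i b)) (g (Function.update x j c))
    (g (Function.update (Function.update x i b) j c))

/-- the walk to `x` -/
def H (g : (Fin n → Bool) → α) (x : Fin n → Bool) : ℕ → List α
  | 0 => [g (mixk 0 x zz)]
  | k + 1 => step (H g x k) (g (mixk (k + 1) x zz))

theorem H_head (g : (Fin n → Bool) → α) (x : Fin n → Bool) (k : ℕ) :
    ∃ l, H g x k = g (mixk k x zz) :: l := by
  cases k with
  | zero => exact ⟨[], rfl⟩
  | succ k =>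
    have h := step_head (H g x k) (g (mixk (k + 1) x zz))
    change (H g x (k + 1)).head? = _ at h
    cases hs : H g x (k + 1) with
    | nil => rw [hs] at h; simp at h
    | cons a l =>
      rw [hs] at h
      simp at h
      exact ⟨l, by rw [h]⟩

theorem H_red (g : (Fin n → Bool) → α) (x : Fin n → Bool) (k : ℕ) : Red (H g x k) := by
  induction k with
  | zero => trivial
  | succ k ih => exact step_red ih _

theorem mixk_full (x y : Fin n → Bool) : mixk n x y = x := by
  funext i
  unfold mixk
  rw [if_pos i.2]

theorem mixk_zero (x y : Fin n → Bool) : mixk 0 x y = y := by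
  funext i
  unfold mixk
  rw [if_neg (by omega)]

theorem mixk_succ (x y : Fin n → Bool) {k : ℕ} (hk : k < n) :
    mixk (k + 1) x y = Function.update (mixk k x y) ⟨k, hk⟩ (x ⟨k, hk⟩) := by
  funext i
  by_cases hi : i = ⟨k, hk⟩
  · subst hi
    rw [Function.update_self]
    unfold mixk
    rw [if_pos (by simp)]
  · rw [Function.update_of_ne hi]
    have : (i : ℕ) ≠ k := fun h => hi (Fin.ext h)
    unfold mixk
    by_cases h : (i : ℕ) < k
    · rw [if_pos h, if_pos (by omega)]
    · rw [if_neg h, if_neg (by omega)]

theorem mixk_update_lt (x y : Fin n → Bool) (i : Fin n) (b : Bool) {k : ℕ} (hk : k ≤ i) :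
    mixk k (Function.update x i b) y = mixk k x y := by
  funext j
  unfold mixk
  by_cases h : (j : ℕ) < k
  · rw [if_pos h, if_pos h, Function.update_of_ne]
    rintro rfl
    omega
  · rw [if_neg h, if_neg h]

theorem mixk_update_ge (x y : Fin n → Bool) (i : Fin n) (b : Bool) {k : ℕ} (hk : (i : ℕ) < k) :
    mixk k (Function.update x i b) y = Function.update (mixk k x y) i b := by
  funext j
  by_cases hj : j = i
  · subst hj
    rw [Function.update_self]
    unfold mixk
    rw [if_pos hk, Function.update_self]
  · rw [Function.update_of_ne hj]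
    unfold mixk
    by_cases h : (j : ℕ) < k
    · rw [if_pos h, if_pos h, Function.update_of_ne hj]
    · rw [if_neg h, if_neg h]

theorem H_before (g : (Fin n → Bool) → α) (x : Fin n → Bool) (i : Fin n) (b : Bool) :
    ∀ k ≤ (i : ℕ), H g (Function.update x i b) k = H g x k := by
  intro k
  induction k with
  | zero =>
    intro _
    change [_] = [_]
    rw [mixk_zero, mixk_zero]
  | succ k ih =>
    intro hk
    change step _ _ = step _ _
    rw [ih (by omega), mixk_update_lt _ _ _ _ hk]

/-- The walks to neighbours. -/
theorem H_after {g : (Fin n → Bool) → α} (hg : Sq g) (x : Fin n → Bool) (i : Fin n)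
    (hx : x i = false) (b : Bool) : ∀ d, (i : ℕ) + 1 + d ≤ n →
    H g (Function.update x i b) ((i : ℕ) + 1 + d) =
      step (H g x ((i : ℕ) + 1 + d)) (g (mixk ((i : ℕ) + 1 + d) (Function.update x i b) zz)) := by
  intro d
  induction d with
  | zero =>
    intro _
    rw [Nat.add_zero]
    change step _ _ = step (step _ _) _
    rw [H_before g x i b i le_rfl]
    congr 1
    have e : mixk ((i : ℕ) + 1) x zz = mixk i x zz := by
      rw [mixk_succ _ _ i.2]
      have : Function.update (mixk (i : ℕ) x zz) ⟨i, i.2⟩ (x ⟨i, i.2⟩) = mixk i x zz := by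
        rw [show x ⟨i, i.2⟩ = mixk (i : ℕ) x zz ⟨i, i.2⟩ from ?_, Function.update_eq_self]
        unfold mixk
        rw [if_neg (by simp)]
        exact hx
      exact this
    rw [e]
    obtain ⟨l, hl⟩ := H_head g x i
    rw [hl, step_self]
  | succ d ih =>
    intro hd
    have ih := ih (by omega)
    set k := (i : ℕ) + 1 + d with hk
    have hkn : k < n := by omega
    have e1 : (i : ℕ) + 1 + (d + 1) = k + 1 := by omega
    rw [e1]
    change step _ _ = step (step _ _) _
    rw [ih]
    obtain ⟨l, hl⟩ := H_head g x k
    have hred := H_red g x k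
    rw [hl] at hred ⊢
    have e2 : mixk k (Function.update x i b) zz = Function.update (mixk k x zz) i b :=
      mixk_update_ge _ _ _ _ (by omega)
    have e3 : mixk (k + 1) x zz = Function.update (mixk k x zz) ⟨k, hkn⟩ (x ⟨k, hkn⟩) :=
      mixk_succ _ _ hkn
    have hne : (⟨k, hkn⟩ : Fin n) ≠ i := by
      intro h
      have := congrArg Fin.val h
      simp only at this
      omega
    have e4 : mixk (k + 1) (Function.update x i b) zz =
        Function.update (Function.update (mixk k x zz) i b) ⟨k, hkn⟩ (x ⟨k, hkn⟩) := by
      rw [mixk_succ _ _ hkn, e2, Function.update_of_ne hne]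
    rw [e2, e3, e4]
    exact step_square hred (hg (mixk k x zz) i ⟨k, hkn⟩ b (x ⟨k, hkn⟩))

/-- the lift of `g` -/
def lift (g : (Fin n → Bool) → α) (x : Fin n → Bool) : List α := H g x n

theorem lift_head (g : (Fin n → Bool) → α) (x : Fin n → Bool) : ∃ l, lift g x = g x :: l := by
  obtain ⟨l, hl⟩ := H_head g x n
  rw [mixk_full] at hl
  exact ⟨l, hl⟩

theorem lift_up {g : (Fin n → Bool) → α} (hg : Sq g) (x : Fin n → Bool) (i : Fin n)
    (hx : x i = false) (b : Bool) :
    lift g (Function.update x i b) = step (lift g x) (g (Function.update x i b)) := by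
  have h := H_after hg x i hx b (n - ((i : ℕ) + 1)) (by omega)
  have e : (i : ℕ) + 1 + (n - ((i : ℕ) + 1)) = n := by omega
  rw [e, mixk_full] at h
  exact h

/-- Neighbours have neighbouring lifts. -/
theorem lift_step {g : (Fin n → Bool) → α} (hg : Sq g) (x : Fin n → Bool) (i : Fin n)
    (b : Bool) : lift g (Function.update x i b) = step (lift g x) (g (Function.update x i b)) := by
  cases hx : x i with
  | false => exact lift_up hg x i hx b
  | true =>
    cases b with
    | true =>
      have e : Function.update x i true = x := by rw [← hx, Function.update_eq_self]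
      rw [e]
      obtain ⟨l, hl⟩ := lift_head g x
      rw [hl, step_self]
    | false =>
      set y := Function.update x i false with hy
      have h := lift_up hg y i (by rw [hy, Function.update_self]) true
      have e : Function.update y i true = x := by
        rw [hy, Function.update_idem, ← hx, Function.update_eq_self]
      rw [e] at h
      obtain ⟨l, hl⟩ := lift_head g y
      have hred : Red (lift g y) := H_red g y n
      rw [h, hl]
      rw [hl] at hred
      exact (step_back hred _).symm

end Pool.Agent.L5helper57.OX
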