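import Pool.Agent.L5helper57.OX.YaoCount
import Pool.Agent.L5helper57.OX.Barrier

/-!
# Rigid functions: weakly but never strongly one-way
-/

set_option autoImplicit false

namespace Pool.Agent.NPC.L5h57.OX

open Pool.Agent.NPC Pool.Agent.NPC.L5h57.OW

/-- On inputs of length `n` the outputs have a length `m n` depending only on `n`, and changing at
most `d` input bits changes at most one output bit. -/
def Rigid (d : ℕ) (f : List Bool → List Bool) : Prop :=
  ∃ (m : ℕ → ℕ) (g : (n : ℕ) → (Fin n → Bool) → (Fin (m n) → Bool)),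
    (∀ n x, f (List.ofFn x) = List.ofFn (g n x)) ∧
    ∀ n x y, hammingDist x y ≤ d → hammingDist (g n x) (g n y) ≤ 1

theorem Rigid.guess {d : ℕ} (hd : 2 ≤ d) {f : List Bool → List Bool} (hf : Rigid d f) (n : ℕ) :
    2 ^ (n + n) ≤ 4 * (n + 1) ^ 2 * invCount f guess n n := by
  obtain ⟨m, g, h1, h2⟩ := hf
  exact invCount_guess (h1 n) fun x y h => h2 n x y (h.trans hd)

theorem Rigid.not_oneWay {d : ℕ} (hd : 2 ≤ d) {f : List Bool → List Bool} (hf : Rigid d f) :
    ¬ OneWay f := by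
  obtain ⟨m, g, h1, h2⟩ := hf
  exact OX.not_oneWay h1 fun n x y h => h2 n x y (h.trans hd)

theorem vanishing_iff {d : ℕ} (hd : 2 ≤ d) : (∃ f, OneWay f) ↔
    ∃ f : List Bool → List Bool, Rigid d f ∧ (∀ x, (f x).length = x.length) ∧ Vanishing f := by
  constructor
  · rintro ⟨f, hf⟩
    obtain ⟨B, hB⟩ := len_bound (H622R2.poly_of_polyTime hf.1)
    exact ⟨fd B d f, ⟨id, gd B d f, fun n x => fd_ofFn B d f x, fun n x y h =>
      gd_lip B f n x y h⟩, fd_length B d f, vanishing_fd hB hf (by omega)⟩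
  · rintro ⟨f, _, _, hf⟩
    exact ⟨gY f, yao hf⟩

end Pool.Agent.NPC.L5h57.OX
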