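import Pool.Agent.L5helper57.OX.Heavy

/-!
# The heavy fibre
-/

set_option autoImplicit false

namespace Pool.Agent.L5helper57.OX

open Finset

variable {α : Type} [DecidableEq α] {n : ℕ}

theorem step_length (l : List α) (w : α) : (step l w).length ≤ l.length + 1 := by
  match l with
  | [] => simp [step]
  | [a] => rw [step_one]; split_ifs <;> simp
  | a :: b :: l => rw [step_two]; split_ifs <;> simp

theorem H_length (g : (Fin n → Bool) → α) (x : Fin n → Bool) (k : ℕ) :
    (H g x k).length ≤ k + 1 := by
  induction k with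
  | zero => simp [H]
  | succ k ih =>
    have := step_length (H g x k) (g (mixk (k + 1) x zz))
    change (step _ _).length ≤ _
    omega

theorem eq_of_cl_none {v L : List α} (h : cl v L = none) (h1 : v <:+ L) : L = v := by
  unfold cl at h
  rw [if_pos h1, List.getElem?_eq_none_iff] at h
  have h2 := h1.length_le
  refine (h1.eq_of_length_le ?_).symm
  rcases Nat.lt_or_ge v.length L.length with h3 | h3
  · omega
  · exact h3

open Classical in
/-- the number of walks extending `v` -/
noncomputable def D (g : (Fin n → Bool) → α) (v : List α) : ℕ :=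
  (univ.filter fun x => v <:+ lift g x).card

theorem exists_median (g : (Fin n → Bool) → α) : ∃ v : List α, 2 ^ n ≤ 2 * D g v ∧
    ∀ w, 2 * D g (w :: v) < 2 ^ n := by
  classical
  by_contra hcon
  push Not at hcon
  have key : ∀ k, ∃ v : List α, v.length = k ∧ 2 ^ n ≤ 2 * D g v := by
    intro k
    induction k with
    | zero =>
      refine ⟨[], rfl, ?_⟩
      have : D g ([] : List α) = 2 ^ n := by
        unfold D
        rw [Finset.filter_true_of_mem (fun x _ => List.nil_suffix)]
        simp
      omega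
    | succ k ih =>
      obtain ⟨v, hv, h⟩ := ih
      obtain ⟨w, hw⟩ := hcon v h
      exact ⟨w :: v, by simp [hv], hw⟩
  obtain ⟨v, hv, h⟩ := key (n + 2)
  have hpos : 0 < 2 ^ n := by positivity
  have h1 : 0 < D g v := by omega
  unfold D at h1
  rw [Finset.card_pos] at h1
  obtain ⟨x, hx⟩ := h1
  rw [Finset.mem_filter] at hx
  have h2 := hx.2.length_le
  have h3 := H_length g x n
  change (lift g x).length ≤ _ at h3
  omega

theorem cl_path {g : (Fin n → Bool) → α} (hg : Sq g) (v : List α) (x y : Fin n → Bool)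
    (h : ∀ k ≤ n, lift g (mixk k y x) ≠ v) : cl v (lift g y) = cl v (lift g x) := by
  have key : ∀ k ≤ n, cl v (lift g (mixk k y x)) = cl v (lift g x) := by
    intro k
    induction k with
    | zero => intro _; rw [mixk_zero]
    | succ k ih =>
      intro hk
      rw [← ih (by omega), mixk_succ y x (by omega), lift_step hg]
      have h1 := h (k + 1) hk
      rw [mixk_succ y x (by omega), lift_step hg] at h1
      refine cl_step (h k (by omega)) h1 ?_
      obtain ⟨l, hl⟩ := lift_head g (mixk k y x)
      rw [hl]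
      simp
  have := key n le_rfl
  rwa [mixk_full] at this

theorem mixk_inj (k : ℕ) (x y : Fin n → Bool) :
    mixk k (mixk k x y) (mixk k y x) = x := by
  funext i
  unfold mixk
  by_cases h : (i : ℕ) < k
  · rw [if_pos h, if_pos h]
  · rw [if_neg h, if_neg h]

theorem card_mixk (k : ℕ) (C : Finset (Fin n → Bool)) :
    ((univ : Finset ((Fin n → Bool) × (Fin n → Bool))).filter fun p =>
      mixk k p.2 p.1 ∈ C).card ≤ C.card * 2 ^ n := by
  have h : (C ×ˢ (univ : Finset (Fin n → Bool))).card = C.card * 2 ^ n := by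
    rw [Finset.card_product, Finset.card_univ]
    simp
  rw [← h]
  refine Finset.card_le_card_of_injOn (fun p => (mixk k p.2 p.1, mixk k p.1 p.2)) ?_ ?_
  · intro p hp
    rw [Finset.mem_coe, Finset.mem_filter] at hp
    rw [Finset.mem_coe, Finset.mem_product]
    exact ⟨hp.2, Finset.mem_univ _⟩
  · rintro ⟨x, y⟩ _ ⟨x', y'⟩ _ h
    simp only [Prod.mk.injEq] at h
    obtain ⟨h1, h2⟩ := h
    have e1 := mixk_inj k x y
    have e2 := mixk_inj k y x
    rw [h1, h2, mixk_inj] at e1
    rw [h1, h2, mixk_inj] at e2
    rw [e1, e2]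

theorem card_class {g : (Fin n → Bool) → α} {v : List α} (h1 : 2 ^ n ≤ 2 * D g v)
    (h2 : ∀ w, 2 * D g (w :: v) < 2 ^ n) (o : Option α) :
    2 * (univ.filter fun y : Fin n → Bool => lift g y ≠ v ∧ cl v (lift g y) = o).card ≤ 2 ^ n := by
  classical
  cases o with
  | none =>
    have h3 : (univ.filter fun y : Fin n → Bool => lift g y ≠ v ∧ cl v (lift g y) = none) ⊆
        univ.filter fun y : Fin n → Bool => ¬ v <:+ lift g y := by
      intro y hy
      rw [Finset.mem_filter] at hy ⊢
      exact ⟨Finset.mem_univ _, fun h => hy.2.1 (eq_of_cl_none hy.2.2 h)⟩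
    have h4 := Finset.card_le_card h3
    have h5 := Finset.card_filter_add_card_filter_not (s := (univ : Finset (Fin n → Bool)))
      (fun y => v <:+ lift g y)
    rw [Finset.card_univ] at h5
    have h6 : Fintype.card (Fin n → Bool) = 2 ^ n := by simp
    rw [h6] at h5
    unfold D at h1
    have h7 : (univ.filter fun y : Fin n → Bool => v <:+ lift g y).card =
      (@Finset.filter _ (fun y : Fin n → Bool => v <:+ lift g y)
        (fun _ => Classical.propDecidable _) univ).card := by congr
    rw [h7] at h5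
    have h8 : (univ.filter fun y : Fin n → Bool => ¬ v <:+ lift g y).card =
      (@Finset.filter _ (fun y : Fin n → Bool => ¬ v <:+ lift g y)
        (fun _ => Classical.propDecidable _) univ).card := by congr
    omega
  | some w =>
    have h3 : (univ.filter fun y : Fin n → Bool => lift g y ≠ v ∧ cl v (lift g y) = some w).card ≤
        D g (w :: v) := by
      unfold D
      refine Finset.card_le_card ?_
      intro y hy
      rw [Finset.mem_filter] at hy ⊢
      exact ⟨Finset.mem_univ _, suffix_of_cl hy.2.2 hy.2.1⟩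
    have := h2 w
    omega

/-- **The heavy fibre.** -/
theorem heavy {g : (Fin n → Bool) → α} (hg : Sq g) :
    ∃ a, 2 ^ n ≤ 2 * (n + 1) * (univ.filter fun x => g x = a).card := by
  classical
  obtain ⟨v, h1, h2⟩ := exists_median g
  set C := univ.filter fun z : Fin n → Bool => lift g z = v with hC
  have hcov : (univ : Finset ((Fin n → Bool) × (Fin n → Bool))) ⊆
      ((Finset.range (n + 1)).biUnion fun k =>
        (univ : Finset ((Fin n → Bool) × (Fin n → Bool))).filter fun p => mixk k p.2 p.1 ∈ C) ∪
      (univ : Finset ((Fin n → Bool) × (Fin n → Bool))).filter fun p =>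
        lift g p.2 ≠ v ∧ cl v (lift g p.2) = cl v (lift g p.1) := by
    rintro ⟨x, y⟩ _
    rw [Finset.mem_union, Finset.mem_biUnion, Finset.mem_filter]
    by_cases h : ∃ k ≤ n, lift g (mixk k y x) = v
    · left
      obtain ⟨k, hk, h⟩ := h
      refine ⟨k, Finset.mem_range.2 (by omega), ?_⟩
      rw [Finset.mem_filter, hC, Finset.mem_filter]
      exact ⟨Finset.mem_univ _, Finset.mem_univ _, h⟩
    · right
      push Not at h
      refine ⟨Finset.mem_univ _, ?_, cl_path hg v x y h⟩
      have := h n le_rfl
      rwa [mixk_full] at this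
  have hcard := Finset.card_le_card hcov
  have e1 : (univ : Finset ((Fin n → Bool) × (Fin n → Bool))).card = 2 ^ n * 2 ^ n := by
    rw [Finset.card_univ, Fintype.card_prod]
    simp
  have e2 : ((Finset.range (n + 1)).biUnion fun k =>
        (univ : Finset ((Fin n → Bool) × (Fin n → Bool))).filter fun p =>
          mixk k p.2 p.1 ∈ C).card ≤ (n + 1) * (C.card * 2 ^ n) := by
    refine Finset.card_biUnion_le.trans ?_
    calc _ ≤ ∑ _k ∈ Finset.range (n + 1), C.card * 2 ^ n :=
          Finset.sum_le_sum fun k _ => card_mixk k C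
      _ = _ := by rw [Finset.sum_const, Finset.card_range, smul_eq_mul]
  have e3 : 2 * ((univ : Finset ((Fin n → Bool) × (Fin n → Bool))).filter fun p =>
        lift g p.2 ≠ v ∧ cl v (lift g p.2) = cl v (lift g p.1)).card ≤ 2 ^ n * 2 ^ n := by
    have e4 : ((univ : Finset ((Fin n → Bool) × (Fin n → Bool))).filter fun p =>
        lift g p.2 ≠ v ∧ cl v (lift g p.2) = cl v (lift g p.1)).card =
        ∑ x : Fin n → Bool, (univ.filter fun y : Fin n → Bool =>
          lift g y ≠ v ∧ cl v (lift g y) = cl v (lift g x)).card := by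
      rw [← Finset.card_sigma]
      refine Finset.card_bij (fun p _ => ⟨p.1, p.2⟩) ?_ ?_ ?_
      · intro p hp
        rw [Finset.mem_filter] at hp
        rw [Finset.mem_sigma, Finset.mem_filter]
        exact ⟨Finset.mem_univ _, Finset.mem_univ _, hp.2⟩
      · rintro ⟨x, y⟩ _ ⟨x', y'⟩ _ h
        simpa using h
      · rintro ⟨x, y⟩ h
        rw [Finset.mem_sigma, Finset.mem_filter] at h
        refine ⟨(x, y), ?_, rfl⟩
        rw [Finset.mem_filter]
        exact ⟨Finset.mem_univ _, h.2.2⟩
    rw [e4, Finset.mul_sum]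
    calc _ ≤ ∑ _x : Fin n → Bool, 2 ^ n := Finset.sum_le_sum fun x _ => card_class h1 h2 _
      _ = _ := by
        rw [Finset.sum_const, Finset.card_univ, smul_eq_mul]
        simp
  have e5 : 2 ^ n ≤ 2 * (n + 1) * C.card := by
    have h3 := hcard.trans (Finset.card_union_le _ _)
    rw [e1] at h3
    have h4 : 2 ^ n * 2 ^ n ≤ (2 * (n + 1) * C.card) * 2 ^ n := by
      have : 2 * ((n + 1) * (C.card * 2 ^ n)) = (2 * (n + 1) * C.card) * 2 ^ n := by ring
      omega
    exact Nat.le_of_mul_le_mul_right h4 (by positivity)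
  have hne : C.Nonempty := by
    rw [← Finset.card_pos]
    rcases Nat.eq_zero_or_pos C.card with h0 | h0
    · rw [h0, Nat.mul_zero] at e5
      have : 0 < 2 ^ n := by positivity
      omega
    · exact h0
  obtain ⟨x0, hx0⟩ := hne
  rw [hC, Finset.mem_filter] at hx0
  refine ⟨g x0, e5.trans (Nat.mul_le_mul_left _ (Finset.card_le_card ?_))⟩
  intro z hz
  rw [hC, Finset.mem_filter] at hz
  rw [Finset.mem_filter]
  refine ⟨Finset.mem_univ _, ?_⟩
  obtain ⟨l, hl⟩ := lift_head g z
  obtain ⟨l0, hl0⟩ := lift_head g x0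
  rw [hz.2, ← hx0.2, hl0] at hl
  simp at hl
  exact hl.1.symm

theorem heavy_pairs {g : (Fin n → Bool) → α} (hg : Sq g) :
    2 ^ n * 2 ^ n ≤ 4 * (n + 1) ^ 2 *
      ((univ : Finset ((Fin n → Bool) × (Fin n → Bool))).filter fun p => g p.2 = g p.1).card := by
  classical
  obtain ⟨a, ha⟩ := heavy hg
  set C := univ.filter fun x : Fin n → Bool => g x = a with hC
  have h1 : (C ×ˢ C).card ≤
      ((univ : Finset ((Fin n → Bool) × (Fin n → Bool))).filter fun p => g p.2 = g p.1).card := by
    refine Finset.card_le_card fun p hp => ?_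
    rw [Finset.mem_product, hC, Finset.mem_filter, Finset.mem_filter] at hp
    rw [Finset.mem_filter]
    exact ⟨Finset.mem_univ _, by rw [hp.1.2, hp.2.2]⟩
  rw [Finset.card_product] at h1
  calc 2 ^ n * 2 ^ n ≤ (2 * (n + 1) * C.card) * (2 * (n + 1) * C.card) := Nat.mul_le_mul ha ha
    _ = 4 * (n + 1) ^ 2 * (C.card * C.card) := by ring
    _ ≤ _ := Nat.mul_le_mul_left _ h1

end Pool.Agent.L5helper57.OX
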