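import Mathlib

/-!
# Reduced walks
-/

set_option autoImplicit false

namespace Pool.Agent.L5helper57.OX

variable {α : Type}

section

variable [DecidableEq α]

/-- One step of a walk, followed by reduction: a walk is the list of its vertices, the last one
first. -/
def step : List α → α → List α
  | [], w => [w]
  | [a], w => if w = a then [a] else [w, a]
  | a :: b :: l, w => if w = a then a :: b :: l else if w = b then b :: l else w :: a :: b :: l

theorem step_one (a w : α) : step [a] w = if w = a then [a] else [w, a] := rfl

theorem step_two (a b : α) (l : List α) (w : α) : step (a :: b :: l) w =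
    if w = a then a :: b :: l else if w = b then b :: l else w :: a :: b :: l := rfl

end

/-- A reduced walk: no vertex is repeated immediately and there is no backtracking. -/
def Red : List α → Prop
  | [] => True
  | [_] => True
  | [a, b] => a ≠ b
  | a :: b :: c :: l => a ≠ b ∧ a ≠ c ∧ Red (b :: c :: l)

theorem Red.tail {a : α} {l : List α} (h : Red (a :: l)) : Red l := by
  match l, h with
  | [], _ => trivial
  | [b], _ => trivial
  | b :: c :: l, h => exact h.2.2

section

variable [DecidableEq α]

theorem step_self (a : α) (l : List α) : step (a :: l) a = a :: l := by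
  cases l <;> simp [step]

theorem step_head (l : List α) (w : α) : (step l w).head? = some w := by
  match l with
  | [] => rfl
  | [a] => rw [step_one]; split_ifs with h <;> simp [h]
  | a :: b :: l =>
    rw [step_two]
    split_ifs with h h2
    · simp [h]
    · simp [h2]
    · rfl

theorem step_red {l : List α} (h : Red l) (w : α) : Red (step l w) := by
  match l, h with
  | [], _ => trivial
  | [a], _ =>
    rw [step_one]
    split_ifs with h1
    · trivial
    · exact h1
  | a :: b :: l, h =>
    rw [step_two]
    split_ifs with h1 h2
    · exact h
    · exact h.tail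
    · exact ⟨h1, h2, h⟩

/-- Going back. -/
theorem step_back {a : α} {l : List α} (h : Red (a :: l)) (w : α) :
    step (step (a :: l) w) a = a :: l := by
  by_cases h1 : w = a
  · rw [h1, step_self, step_self]
  · match l, h with
    | [], _ =>
      rw [step_one, if_neg h1, step_two, if_neg (Ne.symm h1), if_pos rfl]
    | [b], h =>
      have hab : a ≠ b := h
      rw [step_two, if_neg h1]
      by_cases h2 : w = b
      · rw [if_pos h2, step_one, if_neg hab]
      · rw [if_neg h2, step_two, if_neg (Ne.symm h1), if_pos rfl]
    | b :: c :: l, h =>
      rw [step_two, if_neg h1]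
      by_cases h2 : w = b
      · rw [if_pos h2, step_two, if_neg h.1, if_neg h.2.1]
      · rw [if_neg h2, step_two, if_neg (Ne.symm h1), if_pos rfl]

/-- The four values at a square are only two. -/
def Two (a b b' d : α) : Prop := ∀ S ∈ [(a, b, b'), (a, b, d), (a, b', d), (b, b', d)],
  S.1 = S.2.1 ∨ S.1 = S.2.2 ∨ S.2.1 = S.2.2

theorem step_square {a : α} {l : List α} (h : Red (a :: l)) {b b' d : α} (h2 : Two a b b' d) :
    step (step (a :: l) b) d = step (step (a :: l) b') d := by
  have e1 := h2 (a, b, b') (by simp)
  have e2 := h2 (a, b, d) (by simp)
  have e3 := h2 (a, b', d) (by simp)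
  have e4 := h2 (b, b', d) (by simp)
  simp only at e1 e2 e3 e4
  have key : ∀ b' d : α, (a = d ∨ b' = d) →
      step (a :: l) d = step (step (a :: l) b') d := by
    intro b' d hd
    rcases hd with rfl | rfl
    · rw [step_self, step_back h]
    · have h3 := step_head (a :: l) b'
      cases hs : step (a :: l) b' with
      | nil => rw [hs] at h3; simp at h3
      | cons c l' =>
        rw [hs] at h3
        simp at h3
        rw [h3, step_self]
  by_cases hbb : b = b'
  · rw [hbb]
  · by_cases hab : a = b
    · subst hab
      rw [step_self]
      apply key
      rcases e3 with h | h | h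
      · exact absurd h hbb
      · exact Or.inl h
      · exact Or.inr h
    · by_cases hab' : a = b'
      · subst hab'
        rw [step_self]
        symm
        apply key
        rcases e2 with h | h | h
        · exact absurd h hab
        · exact Or.inl h
        · exact Or.inr h
      · rcases e1 with h | h | h
        · exact absurd h hab
        · exact absurd h hab'
        · exact absurd h hbb

end

variable [DecidableEq α]

/-- The direction of the walk `L` seen from the walk `v`. -/
def cl (v L : List α) : Option α :=
  if v <:+ L then L[L.length - v.length - 1]? else none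

theorem cl_cons {v L : List α} {a : α} (h1 : a :: L ≠ v) (h2 : L ≠ v) :
    cl v (a :: L) = cl v L := by
  unfold cl
  have h3 : v <:+ a :: L ↔ v <:+ L := by
    rw [List.suffix_cons_iff]
    constructor
    · rintro (h | h)
      · exact absurd h.symm h1
      · exact h
    · exact Or.inr
  by_cases h4 : v <:+ L
  · rw [if_pos h4, if_pos (h3.2 h4)]
    have h5 : v.length < L.length := by
      rcases Nat.lt_or_ge v.length L.length with h | h
      · exact h
      · exact absurd (h4.eq_of_length_le h).symm h2
    have e : (a :: L).length - v.length - 1 = (L.length - v.length - 1) + 1 := by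
      simp
      omega
    rw [e, List.getElem?_cons_succ]
  · rw [if_neg h4, if_neg (fun h => h4 (h3.1 h))]

theorem cl_step {v L : List α} {w : α} (h1 : L ≠ v) (h2 : step L w ≠ v) (hL : L ≠ []) :
    cl v (step L w) = cl v L := by
  match L, hL with
  | [a], _ =>
    rw [step_one] at h2 ⊢
    split_ifs with h
    · rfl
    · rw [if_neg h] at h2
      exact cl_cons h2 h1
  | a :: b :: l, _ =>
    rw [step_two] at h2 ⊢
    split_ifs with h h'
    · rfl
    · rw [if_neg h, if_pos h'] at h2
      exact (cl_cons h1 h2).symm
    · rw [if_neg h, if_neg h'] at h2
      exact cl_cons h2 h1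

/-- A walk in direction `w` from `v` extends `w :: v`. -/
theorem suffix_of_cl {v L : List α} {w : α} (h : cl v L = some w) (hL : L ≠ v) :
    w :: v <:+ L := by
  unfold cl at h
  split_ifs at h with h1
  obtain ⟨t, rfl⟩ := h1
  have ht : t ≠ [] := by
    rintro rfl
    exact hL rfl
  obtain ⟨t', a, rfl⟩ : ∃ t' a, t = t' ++ [a] := ⟨t.dropLast, t.getLast ht,
    (List.dropLast_append_getLast ht).symm⟩
  have e : (t' ++ [a] ++ v).length - v.length - 1 = t'.length := by
    rw [List.length_append, List.length_append, List.length_singleton]
    omega
  rw [e, List.append_assoc, List.getElem?_append_right le_rfl] at h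
  simp at h
  rw [← h]
  exact ⟨t', by simp⟩

end Pool.Agent.L5helper57.OX
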