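import Pool.Agent.L5helper57.OW.MainA

/-!
# Functions for which few changed input bits change at most one output bit
-/

set_option autoImplicit false

namespace Pool.Agent.NPC.L5h57.OX

open Pool.Agent.NPC Pool.Agent.NPC.L5h57.OW Finset Filter

/-! ### The input length -/

/-- the largest `n` (at most `N`) with `T n ≤ N` -/
noncomputable def nT (T : Polynomial ℕ) (N : ℕ) : ℕ :=
  ((List.range N).filter fun k => decide (T.eval (k + 1) ≤ N)).length

theorem nT_le (T : Polynomial ℕ) (N : ℕ) : nT T N ≤ N := by
  unfold nT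
  refine (List.length_filter_le _ _).trans ?_
  rw [List.length_range]

theorem nT_spec {T : Polynomial ℕ} (h0 : T.eval 0 = 0) (hT : ∀ n, n ≤ T.eval n) (N : ℕ) :
    T.eval (nT T N) ≤ N ∧ N < T.eval (nT T N + 1) := by
  have h := filter_spec (fun k => decide (T.eval (k + 1) ≤ N)) (fun k hk => by
    rw [decide_eq_true_iff] at hk ⊢
    exact (eval_mono T (by omega)).trans hk) N
  have hle := nT_le T N
  constructor
  · rcases Nat.eq_zero_or_pos (nT T N) with h1 | h1
    · rw [h1, h0]
      exact Nat.zero_le _
    · have h2 := (h (nT T N - 1) (by omega)).2 (by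
        change nT T N - 1 < nT T N
        omega)
      rw [decide_eq_true_iff] at h2
      have e : nT T N - 1 + 1 = nT T N := by omega
      rwa [e] at h2
  · rcases Nat.lt_or_ge (nT T N) N with h1 | h1
    · by_contra hcon
      push Not at hcon
      have h2 := (h (nT T N) h1).1 (by rw [decide_eq_true_iff]; exact hcon)
      exact absurd h2 (lt_irrefl _)
    · have h2 : nT T N = N := le_antisymm hle h1
      rw [h2]
      exact lt_of_lt_of_le (Nat.lt_succ_self N) (hT (N + 1))

theorem nT_tendsto {T : Polynomial ℕ} (h0 : T.eval 0 = 0) (hT : ∀ n, n ≤ T.eval n) :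
    Tendsto (nT T) atTop atTop := by
  rw [tendsto_atTop]
  intro b
  filter_upwards [eventually_ge_atTop (T.eval b)] with N hN
  by_contra hcon
  push Not at hcon
  have h1 := (nT_spec h0 hT N).2
  have h2 := eval_mono T (show nT T N + 1 ≤ b by omega)
  omega

theorem uPoly_nT {α : Type} [TEnc α] (T : Polynomial ℕ) {N : α → ℕ} (hN : UPoly N) :
    UPoly (fun a => nT T (N a)) := by
  unfold nT
  refine UPoly.length (NPC.Poly.filter hN.range ?_)
  refine NPC.Poly.decide_le ?_ (hN.toPoly.comp (NPC.Poly.fst NPC.Poly.id))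
  exact poly_eval (NPC.Poly.add (NPC.Poly.snd NPC.Poly.id) (NPC.Poly.const 1)) _

/-! ### The function -/

/-- length of a block -/
noncomputable def Kd (B : Polynomial ℕ) (d : ℕ) : Polynomial ℕ :=
  16 * (Polynomial.X ^ 2) ^ 2 * (mP B * (d : Polynomial ℕ)) ^ 2 + 1

/-- number of bits which are used -/
noncomputable def Td (B : Polynomial ℕ) (d : ℕ) : Polynomial ℕ :=
  Polynomial.X * (Polynomial.X * Kd B d)

theorem Kd_eval (B : Polynomial ℕ) (d n : ℕ) :
    (Kd B d).eval n = 2 * (8 * (n ^ 2) ^ 2 * ((mP B).eval n * d) ^ 2) + 1 := by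
  unfold Kd
  simp only [Polynomial.eval_mul, Polynomial.eval_X, Polynomial.eval_add, Polynomial.eval_pow,
    Polynomial.eval_ofNat, Polynomial.eval_one, Polynomial.eval_natCast, Nat.cast_id]
  ring

theorem Td_eval (B : Polynomial ℕ) (d n : ℕ) : (Td B d).eval n = n * (n * (Kd B d).eval n) := by
  unfold Td
  simp only [Polynomial.eval_mul, Polynomial.eval_X]

theorem Td_zero (B : Polynomial ℕ) (d : ℕ) : (Td B d).eval 0 = 0 := by
  rw [Td_eval, Nat.zero_mul]

theorem le_Td (B : Polynomial ℕ) (d n : ℕ) : n ≤ (Td B d).eval n := by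
  rw [Td_eval]
  have h1 : 1 ≤ (Kd B d).eval n := by rw [Kd_eval]; omega
  rcases Nat.eq_zero_or_pos n with h | h
  · rw [h]; exact Nat.zero_le _
  · calc n = n * 1 := (Nat.mul_one n).symm
      _ ≤ n * (n * (Kd B d).eval n) := Nat.mul_le_mul_left _ (Nat.mul_pos h h1)

/-- An output bit: the bit `i` of the code of `y` is visible if the margin is at least
`(i + 1) * d`. -/
def dcell (d g : ℕ) (y : List Bool) (m i : ℕ) : Bool :=
  decide (i < m) && (decide ((i + 1) * d ≤ g) && wb y m i)

/-- The new function. -/
noncomputable def fd (B : Polynomial ℕ) (d : ℕ) (f : List Bool → List Bool) (z : List Bool) :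
    List Bool :=
  (List.range z.length).map fun i =>
    dcell d (gg z ((Kd B d).eval (nT (Td B d) z.length)) (nT (Td B d) z.length) 0)
      (f (xs z ((Kd B d).eval (nT (Td B d) z.length)) (nT (Td B d) z.length) 0))
      ((mP B).eval (nT (Td B d) z.length)) i

theorem fd_length (B : Polynomial ℕ) (d : ℕ) (f : List Bool → List Bool) (z : List Bool) :
    (fd B d f z).length = z.length := by
  unfold fd
  simp

theorem fd_getD (B : Polynomial ℕ) (d : ℕ) (f : List Bool → List Bool) (z : List Bool) {i : ℕ}
    (h : i < z.length) : (fd B d f z).getD i false =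
      dcell d (gg z ((Kd B d).eval (nT (Td B d) z.length)) (nT (Td B d) z.length) 0)
        (f (xs z ((Kd B d).eval (nT (Td B d) z.length)) (nT (Td B d) z.length) 0))
        ((mP B).eval (nT (Td B d) z.length)) i := by
  rw [List.getD_eq_getElem _ _ (by rw [fd_length]; exact h)]
  unfold fd
  rw [List.getElem_map, List.getElem_range]

theorem poly_dcell {α : Type} [TEnc α] (d : ℕ) {g : α → ℕ} {y : α → List Bool} {m i : α → ℕ}
    (hg : NPC.Poly g) (hy : NPC.Poly y) (hm : NPC.Poly m) (hi : NPC.Poly i) :
    NPC.Poly (fun a => dcell d (g a) (y a) (m a) (i a)) := by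
  unfold dcell wb
  fun_prop

theorem poly_fd (B : Polynomial ℕ) (d : ℕ) {f : List Bool → List Bool} (hf : NPC.Poly f) :
    NPC.Poly (fd B d f) := by
  have hN : UPoly (fun z : List Bool => z.length) := UPoly.length NPC.Poly.id
  have hn : UPoly (fun z : List Bool => nT (Td B d) z.length) := uPoly_nT _ hN
  have hK : UPoly (fun z : List Bool => (Kd B d).eval (nT (Td B d) z.length)) := UPoly.eval hn _
  have hm : UPoly (fun z : List Bool => (mP B).eval (nT (Td B d) z.length)) := UPoly.eval hn _
  have hg := poly_gg (NPC.Poly.id (α := List Bool)) hK hn (NPC.Poly.const 0)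
  have hx := hf.comp (poly_xs (NPC.Poly.id (α := List Bool)) hK hn (NPC.Poly.const 0))
  unfold fd
  refine NPC.Poly.map hN.range ?_
  exact poly_dcell d (hg.comp (NPC.Poly.fst NPC.Poly.id)) (hx.comp (NPC.Poly.fst NPC.Poly.id))
    (hm.toPoly.comp (NPC.Poly.fst NPC.Poly.id)) (NPC.Poly.snd NPC.Poly.id)

/-! ### Few changed bits -/

theorem ones_dist {N : ℕ} (z z' : Fin N → Bool) (K s : ℕ) :
    ones (List.ofFn z) K s ≤ ones (List.ofFn z') K s + hammingDist z z' := by
  rw [ones_eq, ones_eq]
  have h1 : ((Finset.range K).filter fun r => (List.ofFn z).getD (s * K + r) false = true) ⊆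
      ((Finset.range K).filter fun r => (List.ofFn z').getD (s * K + r) false = true) ∪
      ((Finset.range K).filter fun r =>
        (List.ofFn z).getD (s * K + r) false ≠ (List.ofFn z').getD (s * K + r) false) := by
    intro r hr
    rw [Finset.mem_filter] at hr
    rw [Finset.mem_union, Finset.mem_filter, Finset.mem_filter]
    by_cases h : (List.ofFn z').getD (s * K + r) false = true
    · exact Or.inl ⟨hr.1, h⟩
    · refine Or.inr ⟨hr.1, fun e => h ?_⟩
      rw [← e]
      exact hr.2
  refine (Finset.card_le_card h1).trans ((Finset.card_union_le _ _).trans ?_)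
  refine Nat.add_le_add_left ?_ _
  unfold hammingDist
  rw [← Finset.card_map Fin.valEmbedding]
  refine Finset.card_le_card_of_injOn (fun r => s * K + r) ?_ ?_
  · intro r hr
    rw [Finset.mem_coe, Finset.mem_filter, getD_ofFn, getD_ofFn] at hr
    have hN : s * K + r < N := by
      by_contra hcon
      rw [dif_neg hcon, dif_neg hcon] at hr
      exact hr.2 rfl
    rw [dif_pos hN, dif_pos hN] at hr
    rw [Finset.mem_coe, Finset.mem_map]
    exact ⟨⟨s * K + r, hN⟩, by rw [Finset.mem_filter]; exact ⟨Finset.mem_univ _, hr.2⟩, rfl⟩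
  · intro r _ r' _ h
    simpa using h

theorem gg_dist {N : ℕ} (z z' : Fin N → Bool) {K κ n : ℕ} (hK : K = 2 * κ + 1) (hn : 0 < n)
    (j : ℕ) : gg (List.ofFn z) K n j ≤ gg (List.ofFn z') K n j + hammingDist z z' := by
  obtain ⟨b, hb, e⟩ := exists_gg (List.ofFn z') j hK hn
  have h1 := gg_le (j := j) (List.ofFn z) hK hb
  have h2 := ones_dist z z' K (j * n + b)
  have h3 := ones_dist z' z K (j * n + b)
  rw [hammingDist_comm z' z] at h3
  rw [e]
  refine h1.trans ?_
  unfold mg
  split_ifs <;> omega

theorem gg_small {N : ℕ} (z z' : Fin N → Bool) {K κ n : ℕ} (hK : K = 2 * κ + 1)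
    (j : ℕ) (hx : xs (List.ofFn z) K n j ≠ xs (List.ofFn z') K n j) :
    gg (List.ofFn z) K n j < hammingDist z z' := by
  have : ∃ b < n, mj (List.ofFn z) K (j * n + b) ≠ mj (List.ofFn z') K (j * n + b) := by
    by_contra hcon
    push Not at hcon
    apply hx
    unfold xs
    exact List.map_congr_left fun b hb => hcon b (List.mem_range.1 hb)
  obtain ⟨b, hb, hne⟩ := this
  have h1 := gg_le (j := j) (List.ofFn z) hK hb
  have h2 := ones_dist z z' K (j * n + b)
  have h3 := ones_dist z' z K (j * n + b)
  rw [hammingDist_comm z' z] at h3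
  refine lt_of_le_of_lt h1 ?_
  unfold mj at hne
  rw [ne_eq, decide_eq_decide] at hne
  unfold mg
  split_ifs <;> omega

/-- the new function on vectors -/
noncomputable def gd (B : Polynomial ℕ) (d : ℕ) (f : List Bool → List Bool) (N : ℕ)
    (z : Fin N → Bool) : Fin N → Bool := fun i => (fd B d f (List.ofFn z)).getD i false

theorem fd_ofFn (B : Polynomial ℕ) (d : ℕ) (f : List Bool → List Bool) {N : ℕ}
    (z : Fin N → Bool) : fd B d f (List.ofFn z) = List.ofFn (gd B d f N z) := by
  apply List.ext_getElem
  · rw [fd_length]; simp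
  · intro i h1 h2
    rw [List.getElem_ofFn]
    unfold gd
    rw [List.getD_eq_getElem _ _ h1]

theorem dcell_unique {d g g' : ℕ} (h1 : g ≤ g' + d) (h2 : g' ≤ g + d) (y : List Bool)
    (m i i' : ℕ) (h : dcell d g y m i ≠ dcell d g' y m i)
    (h' : dcell d g y m i' ≠ dcell d g' y m i') : i = i' := by
  have key : ∀ i, dcell d g y m i ≠ dcell d g' y m i →
      ¬ ((i + 1) * d ≤ g ↔ (i + 1) * d ≤ g') := by
    intro i h e
    apply h
    unfold dcell
    rw [decide_eq_decide.2 e]
  have e := key i h
  have e' := key i' h'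
  have m1 : (i + 1) * d = i * d + d := by ring
  have m2 : (i' + 1) * d = i' * d + d := by ring
  rw [m1] at e
  rw [m2] at e'
  rcases Nat.lt_trichotomy i i' with hlt | heq | hgt
  · exfalso
    have : i * d + d ≤ i' * d := by
      calc i * d + d = (i + 1) * d := m1.symm
        _ ≤ i' * d := Nat.mul_le_mul_right _ hlt
    omega
  · exact heq
  · exfalso
    have : i' * d + d ≤ i * d := by
      calc i' * d + d = (i' + 1) * d := m2.symm
        _ ≤ i * d := Nat.mul_le_mul_right _ hgt
    omega

/-- **Few changed input bits change at most one output bit.** -/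
theorem gd_lip (B : Polynomial ℕ) {d : ℕ} (f : List Bool → List Bool) (N : ℕ)
    (x y : Fin N → Bool) (h : hammingDist x y ≤ d) :
    hammingDist (gd B d f N x) (gd B d f N y) ≤ 1 := by
  set n := nT (Td B d) N with hn
  set K := (Kd B d).eval n with hK
  set m := (mP B).eval n with hm
  have hKo := Kd_eval B d n
  rw [← hK] at hKo
  have hval : ∀ (z : Fin N → Bool) (i : Fin N), gd B d f N z i =
      dcell d (gg (List.ofFn z) K n 0) (f (xs (List.ofFn z) K n 0)) m i := by
    intro z i
    have hlz : (List.ofFn z).length = N := by simp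
    unfold gd
    rw [fd_getD B d f _ (by rw [hlz]; exact i.2), hlz]
  rcases Nat.eq_zero_or_pos n with hn0 | hn0
  · have e : gd B d f N x = gd B d f N y := by
      funext i
      rw [hval, hval]
      have e1 : xs (List.ofFn x) K n 0 = xs (List.ofFn y) K n 0 := by
        unfold xs
        rw [hn0]
        rfl
      have e2 : gg (List.ofFn x) K n 0 = gg (List.ofFn y) K n 0 := by
        unfold gg vis
        rw [hn0]
        rfl
      rw [e1, e2]
    rw [e, hammingDist_self]
    omega
  by_cases hx : xs (List.ofFn x) K n 0 = xs (List.ofFn y) K n 0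
  · have g1 := gg_dist x y hKo hn0 0
    have g2 := gg_dist y x hKo hn0 0
    rw [hammingDist_comm y x] at g2
    unfold hammingDist
    rw [Finset.card_le_one]
    intro i hi i' hi'
    rw [Finset.mem_filter, hval, hval, hx] at hi hi'
    exact Fin.ext (dcell_unique (by omega) (by omega) _ _ _ _ hi.2 hi'.2)
  · have g1 := gg_small x y hKo 0 hx
    have g2 := gg_small y x hKo 0 (Ne.symm hx)
    rw [hammingDist_comm y x] at g2
    have e : gd B d f N x = gd B d f N y := by
      funext i
      rw [hval, hval]
      have key : ∀ (g : ℕ) (y : List Bool), g < d → dcell d g y m i = false := by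
        intro g y hg
        unfold dcell
        have : ¬ ((i : ℕ) + 1) * d ≤ g := by
          have : ((i : ℕ) + 1) * d = i * d + d := by ring
          omega
        rw [decide_eq_false this, Bool.false_and, Bool.and_false]
      rw [key _ _ (by omega), key _ _ (by omega)]
    rw [e, hammingDist_self]
    omega

end Pool.Agent.NPC.L5h57.OX
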