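import Pool.Agent.L5helper57.OX.Weak

/-!
# Inverting the new function with non-vanishing probability inverts the given one
-/

set_option autoImplicit false

namespace Pool.Agent.NPC.L5h57.OX

open Pool.Agent.NPC Pool.Agent.NPC.L5h57.OW Finset Filter

/-- the output of the new function if a preimage of `y` is coded -/
def dtgt (d : ℕ) (z y : List Bool) (K n m N : ℕ) : List Bool :=
  (List.range N).map fun i => dcell d (gg z K n 0) y m i

/-- the number of coins -/
noncomputable def qd (B : Polynomial ℕ) (d : ℕ) (q : Polynomial ℕ) : Polynomial ℕ :=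
  (Td B d).comp (Polynomial.X + 1) + (q.comp (Td B d)).comp (Polynomial.X + 1)

theorem qd_eval (B : Polynomial ℕ) (d : ℕ) (q : Polynomial ℕ) (n : ℕ) :
    (qd B d q).eval n = (Td B d).eval (n + 1) + q.eval ((Td B d).eval (n + 1)) := by
  unfold qd
  simp [Polynomial.eval_comp]

/-- a candidate -/
noncomputable def candd (B : Polynomial ℕ) (d : ℕ) (q : Polynomial ℕ)
    (A : List Bool → List Bool) (w y : List Bool) (n N : ℕ) : List Bool :=
  xs (A ((List.range N).map (fun _ => true) ++ false :: (slice w (n + 1 + N) (q.eval N) ++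
    dtgt d (slice w (n + 1) N) y ((Kd B d).eval n) n ((mP B).eval n) N)))
    ((Kd B d).eval n) n 0

/-- the rest of the input -/
noncomputable def yd (B : Polynomial ℕ) (d : ℕ) (q : Polynomial ℕ) (w : List Bool) : List Bool :=
  slice w (nOf w + 1 + (qd B d q).eval (nOf w)) (w.length - (nOf w + 1 + (qd B d q).eval (nOf w)))

/-- the inverter -/
noncomputable def algd (B : Polynomial ℕ) (d : ℕ) (q : Polynomial ℕ)
    (f A : List Bool → List Bool) (w : List Bool) : List Bool :=
  (((List.range ((Td B d).eval (nOf w + 1))).map fun N =>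
    candd B d q A w (yd B d q w) (nOf w) (min N ((Td B d).eval (nOf w + 1)))).filter fun c =>
      decide (f c = yd B d q w)).head?.getD []

theorem poly_yd (B : Polynomial ℕ) (d : ℕ) (q : Polynomial ℕ) : NPC.Poly (yd B d q) := by
  have hn := uPoly_nOf
  have hq : UPoly (fun w => (qd B d q).eval (nOf w)) := UPoly.eval hn _
  have hnp := hn.toPoly
  have hqp := hq.toPoly
  unfold yd
  refine poly_slice NPC.Poly.id ?_ ?_
  · fun_prop
  · refine UPoly.of_le (n := fun w : List Bool => w.length) ?_ (UPoly.length NPC.Poly.id)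
      fun w => Nat.sub_le _ _
    fun_prop

theorem poly_dtgt {α : Type} [TEnc α] (d : ℕ) {z y : α → List Bool} {K n m N : α → ℕ}
    (hz : NPC.Poly z) (hy : NPC.Poly y) (hK : UPoly K) (hn : UPoly n) (hm : NPC.Poly m)
    (hN : UPoly N) : NPC.Poly (fun a => dtgt d (z a) (y a) (K a) (n a) (m a) (N a)) := by
  unfold dtgt
  refine NPC.Poly.map hN.range ?_
  have h1 := NPC.Poly.fst (NPC.Poly.id (α := α × ℕ))
  exact poly_dcell d (poly_gg (hz.comp h1) (hK.comp h1) (hn.comp h1) (NPC.Poly.const 0))
    (hy.comp h1) (hm.comp h1) (NPC.Poly.snd NPC.Poly.id)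

theorem poly_candd {α : Type} [TEnc α] (B : Polynomial ℕ) (d : ℕ) (q : Polynomial ℕ)
    {A : List Bool → List Bool} (hA : NPC.Poly A) {w y : α → List Bool} {n N : α → ℕ}
    (hw : NPC.Poly w) (hy : NPC.Poly y) (hn : UPoly n) (hN : UPoly N) :
    NPC.Poly (fun a => candd B d q A (w a) (y a) (n a) (N a)) := by
  unfold candd
  have hK : UPoly (fun a => (Kd B d).eval (n a)) := UPoly.eval hn _
  have hm : UPoly (fun a => (mP B).eval (n a)) := UPoly.eval hn _
  have hnp := hn.toPoly
  have hNp := hN.toPoly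
  refine poly_xs (hA.comp ?_) hK hn (NPC.Poly.const 0)
  refine NPC.Poly.append (NPC.Poly.map hN.range (NPC.Poly.const true)) ?_
  refine NPC.Poly.cons (NPC.Poly.const false) (NPC.Poly.append ?_ ?_)
  · exact poly_slice hw (by fun_prop) (UPoly.eval hN _)
  · exact poly_dtgt d (poly_slice hw (by fun_prop) hN) hy hK hn hm.toPoly hN

theorem poly_algd (B : Polynomial ℕ) (d : ℕ) (q : Polynomial ℕ) {f A : List Bool → List Bool}
    (hf : NPC.Poly f) (hA : NPC.Poly A) : NPC.Poly (algd B d q f A) := by
  have hn := uPoly_nOf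
  have hT : UPoly (fun w => (Td B d).eval (nOf w + 1)) := by
    have h1 := UPoly.eval (UPoly.add hn (UPoly.const 1)) (Td B d)
    exact h1
  have hy := poly_yd B d q
  unfold algd
  refine NPC.Poly.optGetD (NPC.Poly.head? (NPC.Poly.filter ?_ ?_)) (NPC.Poly.const [])
  · refine NPC.Poly.map hT.range ?_
    have h1 : NPC.Poly (fun p : List Bool × ℕ => p.1) := by fun_prop
    refine poly_candd B d q hA h1 (hy.comp h1) (hn.comp h1) ?_
    refine UPoly.of_le (n := fun p : List Bool × ℕ => (Td B d).eval (nOf p.1 + 1)) ?_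
        (hT.comp h1) fun p => min_le_right _ _
    have := hT.toPoly.comp h1
    fun_prop
  · fun_prop

theorem algd_spec (B : Polynomial ℕ) (d : ℕ) (q : Polynomial ℕ) (f A : List Bool → List Bool)
    {n : ℕ} {r y : List Bool} (hr : r.length = (qd B d q).eval n) {N : ℕ}
    (hN : N < (Td B d).eval (n + 1))
    (h : f (candd B d q A (List.replicate n true ++ false :: (r ++ y)) y n N) = y) :
    f (algd B d q f A (List.replicate n true ++ false :: (r ++ y))) = y := by
  set w := List.replicate n true ++ false :: (r ++ y) with hw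
  have hn : nOf w = n := nOf_eq _ _
  have hy : yd B d q w = y := by
    unfold yd
    rw [hn, hw]
    have e : List.replicate n true ++ false :: (r ++ y) =
        (List.replicate n true ++ false :: r) ++ y := by simp
    rw [e]
    apply slice_end
    · simp [hr]; omega
    · simp [hr]; omega
  unfold algd
  rw [hn, hy]
  set l := ((List.range ((Td B d).eval (n + 1))).map fun N =>
    candd B d q A w y n (min N ((Td B d).eval (n + 1)))) with hl
  have hmem : candd B d q A w y n N ∈ l.filter fun c => decide (f c = y) := by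
    rw [List.mem_filter, hl, List.mem_map]
    exact ⟨⟨N, List.mem_range.2 hN, by rw [min_eq_left hN.le]⟩, by
      rw [decide_eq_true_iff]; exact h⟩
  have hall : ∀ c ∈ l.filter fun c => decide (f c = y), f c = y := by
    intro c hc
    rw [List.mem_filter] at hc
    exact of_decide_eq_true hc.2
  revert hmem hall
  cases l.filter fun c => decide (f c = y) with
  | nil => intro hmem; exact absurd hmem (List.not_mem_nil)
  | cons c l' =>
    intro _ hall
    exact hall c (List.mem_cons_self)

/-! ### Correctness -/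

theorem m_le_T (B : Polynomial ℕ) {d n : ℕ} (hd : 1 ≤ d) (hn : 1 ≤ n) :
    (mP B).eval n ≤ (Td B d).eval n := by
  rw [Td_eval, Kd_eval]
  set m := (mP B).eval n
  have h1 : m ≤ (m * d) ^ 2 := by
    calc m = m * 1 := (Nat.mul_one m).symm
      _ ≤ m * d := Nat.mul_le_mul_left _ hd
      _ ≤ (m * d) ^ 2 := Nat.le_self_pow (by norm_num) _
  have h2 : 1 ≤ (n ^ 2) ^ 2 := Nat.one_le_pow _ _ (Nat.one_le_pow _ _ hn)
  have h3 : (m * d) ^ 2 ≤ 8 * (n ^ 2) ^ 2 * (m * d) ^ 2 :=
    Nat.le_mul_of_pos_left _ (by omega)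
  set K := 2 * (8 * (n ^ 2) ^ 2 * (m * d) ^ 2) + 1
  have h4 : m ≤ K := by omega
  calc m ≤ K := h4
    _ = 1 * (1 * K) := by ring
    _ ≤ n * (n * K) := Nat.mul_le_mul hn (Nat.mul_le_mul_right _ hn)

theorem read_d {f : List Bool → List Bool} {B : Polynomial ℕ}
    (hB : ∀ x, (f x).length ≤ B.eval x.length) {d : ℕ} (hd : 1 ≤ d) {z z' : List Bool}
    (hl : z'.length = z.length) {n K m : ℕ} (hn : nT (Td B d) z.length = n)
    (hK : (Kd B d).eval n = K) (hm : (mP B).eval n = m) (hn0 : 1 ≤ n)
    (hg : m * d ≤ gg z K n 0) (h : fd B d f z' = fd B d f z) :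
    f (xs z' K n 0) = f (xs z K n 0) := by
  have hm1 : m = 2 * B.eval n + 2 := by
    rw [← hm]
    unfold mP
    simp
  have hT := (nT_spec (Td_zero B d) (le_Td B d) z.length).1
  rw [hn] at hT
  have hmT := m_le_T B hd hn0
  rw [hm] at hmT
  have hcell : ∀ i < m, dcell d (gg z' K n 0) (f (xs z' K n 0)) m i =
      dcell d (gg z K n 0) (f (xs z K n 0)) m i := by
    intro i hi
    have h1 : (fd B d f z').getD i false = (fd B d f z).getD i false := by rw [h]
    rw [fd_getD B d f z (by omega), fd_getD B d f z' (by omega), hl, hn, hK, hm] at h1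
    exact h1
  have hx : ∀ w : List Bool, (f (xs w K n 0)).length ≤ B.eval n := by
    intro w
    have := hB (xs w K n 0)
    have e : (xs w K n 0).length = n := by unfold xs; simp
    rwa [e] at this
  have hv : ∀ i < m, (i + 1) * d ≤ gg z K n 0 := fun i hi =>
    (Nat.mul_le_mul_right _ hi).trans hg
  have hlast := hcell (m - 1) (by omega)
  unfold dcell at hlast
  rw [decide_eq_true (show m - 1 < m by omega), decide_eq_true (hv _ (by omega)),
    wb_last _ (by omega), wb_last _ (by omega)] at hlast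
  simp only [Bool.true_and, Bool.and_true, decide_eq_true_iff] at hlast
  have hg' : m * d ≤ gg z' K n 0 := by
    have e : m - 1 + 1 = m := by omega
    rwa [e] at hlast
  have hv' : ∀ i < m, (i + 1) * d ≤ gg z' K n 0 := fun i hi =>
    (Nat.mul_le_mul_right _ hi).trans hg'
  refine wb_inj (m := m) ?_ ?_ fun i hi => ?_
  · have := hx z'; omega
  · have := hx z; omega
  · have h1 := hcell i hi
    unfold dcell at h1
    rw [decide_eq_true hi, decide_eq_true (hv i hi), decide_eq_true (hv' i hi), Bool.true_and,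
      Bool.true_and, Bool.true_and, Bool.true_and] at h1
    exact h1

theorem dtgt_eq (B : Polynomial ℕ) (d : ℕ) (f : List Bool → List Bool) {N n K m : ℕ}
    (hn : nT (Td B d) N = n) (hK : (Kd B d).eval n = K) (hm : (mP B).eval n = m) (hn0 : 0 < n)
    (x : Fin n → Bool) (z : Fin N → Bool) :
    dtgt d (List.ofFn z) (f (List.ofFn x)) K n m N = fd B d f (List.ofFn (tw K n 0 x z)) := by
  have hKo := Kd_eval B d n
  rw [hK] at hKo
  have hT := (nT_spec (Td_zero B d) (le_Td B d) N).1
  rw [hn, Td_eval, hK] at hT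
  have hlz : (List.ofFn (tw K n 0 x z)).length = N := by simp
  unfold dtgt fd
  rw [hlz, hn, hK, hm, gg_tw hKo hT x z hn0, xs_eq, xf_tw hKo hn0 hT]

theorem candd_good {f A : List Bool → List Bool} {B : Polynomial ℕ}
    (hB : ∀ x, (f x).length ≤ B.eval x.length) {d : ℕ} (hd : 1 ≤ d) (q : Polynomial ℕ)
    {N n K m : ℕ} (hn : nT (Td B d) N = n) (hK : (Kd B d).eval n = K) (hm : (mP B).eval n = m)
    (hn0 : 0 < n) (x : Fin n → Bool) (z : Fin N → Bool) (r : Fin (q.eval N) → Bool)
    (rest : List Bool) (hg : m * d ≤ gg (List.ofFn (tw K n 0 x z)) K n 0)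
    (h : fd B d f (A (List.replicate N true ++ false :: (List.ofFn r ++
      fd B d f (List.ofFn (tw K n 0 x z))))) = fd B d f (List.ofFn (tw K n 0 x z))) :
    f (candd B d q A (List.replicate n true ++ false ::
      ((List.ofFn z ++ (List.ofFn r ++ rest)) ++ f (List.ofFn x))) (f (List.ofFn x)) n N) =
      f (List.ofFn x) := by
  have hKo := Kd_eval B d n
  rw [hK] at hKo
  have hT := (nT_spec (Td_zero B d) (le_Td B d) N).1
  rw [hn, Td_eval, hK] at hT
  have e1 : slice (List.replicate n true ++ false ::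
      ((List.ofFn z ++ (List.ofFn r ++ rest)) ++ f (List.ofFn x))) (n + 1) N = List.ofFn z := by
    have e : List.replicate n true ++ false ::
      ((List.ofFn z ++ (List.ofFn r ++ rest)) ++ f (List.ofFn x)) =
      (List.replicate n true ++ [false]) ++ (List.ofFn z ++ ((List.ofFn r ++ rest) ++
        f (List.ofFn x))) := by simp
    rw [e]
    exact slice_append' _ _ _ (by simp) (by simp)
  have e2 : slice (List.replicate n true ++ false ::
      ((List.ofFn z ++ (List.ofFn r ++ rest)) ++ f (List.ofFn x))) (n + 1 + N) (q.eval N) =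
      List.ofFn r := by
    have e : List.replicate n true ++ false ::
      ((List.ofFn z ++ (List.ofFn r ++ rest)) ++ f (List.ofFn x)) =
      ((List.replicate n true ++ [false]) ++ List.ofFn z) ++ (List.ofFn r ++ (rest ++
        f (List.ofFn x))) := by simp
    rw [e]
    exact slice_append' _ _ _ (by simp; omega) (by simp)
  have e3 : (List.range N).map (fun _ => true) = List.replicate N true := by
    rw [List.map_const', List.length_range]
  unfold candd
  rw [e1, e2, e3, hK, hm, dtgt_eq B d f hn hK hm hn0 x z]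
  set w := tw K n 0 x z with hw
  set z' := A (List.replicate N true ++ false :: (List.ofFn r ++ fd B d f (List.ofFn w))) with hz'
  have hlw : (List.ofFn w).length = N := by simp
  have hl : z'.length = (List.ofFn w).length := by
    rw [← fd_length B d f z', h, fd_length]
  have h1 := read_d hB hd hl (by rw [hlw]; exact hn) hK hm hn0 hg h
  rw [h1, xs_eq, hw, xf_tw hKo hn0 hT]

open Classical in
theorem countd {f A : List Bool → List Bool} {B : Polynomial ℕ}
    (hB : ∀ x, (f x).length ≤ B.eval x.length) {d : ℕ} (hd : 1 ≤ d) (q : Polynomial ℕ)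
    {N n K m : ℕ} (hn : nT (Td B d) N = n) (hK : (Kd B d).eval n = K) (hm : (mP B).eval n = m)
    (hn0 : 0 < n) {R : ℕ} (hR : N + (q.eval N + R) = (qd B d q).eval n) :
    2 ^ n * ((univ.filter fun p : (Fin N → Bool) × (Fin (q.eval N) → Bool) =>
      fd B d f (A (List.replicate N true ++ false :: (List.ofFn p.2 ++ fd B d f (List.ofFn p.1)))) =
        fd B d f (List.ofFn p.1) ∧ m * d ≤ gg (List.ofFn p.1) K n 0).card * 2 ^ R) ≤
    invCount f (algd B d q f A) n ((qd B d q).eval n) := by
  set Q := (qd B d q).eval n with hQ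
  have hKo := Kd_eval B d n
  rw [hK] at hKo
  have hT := (nT_spec (Td_zero B d) (le_Td B d) N).1
  rw [hn, Td_eval, hK] at hT
  set S := (univ.filter fun p : (Fin N → Bool) × (Fin (q.eval N) → Bool) =>
      fd B d f (A (List.replicate N true ++ false :: (List.ofFn p.2 ++ fd B d f (List.ofFn p.1)))) =
        fd B d f (List.ofFn p.1) ∧ m * d ≤ gg (List.ofFn p.1) K n 0) with hS
  have hcard : ((univ : Finset (Fin n → Bool)) ×ˢ (S ×ˢ (univ : Finset (Fin R → Bool)))).card =
      2 ^ n * (S.card * 2 ^ R) := by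
    rw [Finset.card_product, Finset.card_product, Finset.card_univ, Finset.card_univ]
    simp
  rw [← hcard]
  unfold invCount
  refine Finset.card_le_card_of_injOn (fun p => (xf K n 0 p.2.1.1, fun i : Fin Q =>
    (List.ofFn (tw K n 0 p.1 p.2.1.1) ++ (List.ofFn p.2.1.2 ++ List.ofFn p.2.2)).getD i false))
    ?_ ?_
  · rintro ⟨x, ⟨z, r⟩, rest⟩ hp
    rw [Finset.mem_coe, Finset.mem_product, Finset.mem_product] at hp
    have hp2 := hp.2.1
    simp only at hp2
    rw [hS, Finset.mem_filter] at hp2
    obtain ⟨_, h1, h2⟩ := hp2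
    rw [Finset.mem_coe, Finset.mem_filter]
    refine ⟨Finset.mem_univ _, ?_⟩
    have hlen : (List.ofFn (tw K n 0 x z) ++ (List.ofFn r ++ List.ofFn rest)).length = Q := by
      simp [← hR]
    simp only
    rw [ofFn_getD_eq _ hlen]
    have htt := tw_tw hKo hn0 hT x z
    have hlt := (nT_spec (Td_zero B d) (le_Td B d) N).2
    rw [hn] at hlt
    refine algd_spec B d q f A (hlen.trans hQ) hlt ?_
    have key := candd_good (A := A) hB hd q hn hK hm hn0 (xf K n 0 z) (tw K n 0 x z) r
      (List.ofFn rest) (by rw [htt]; exact h2) (by rw [htt]; exact h1)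
    exact key
  · rintro ⟨x, ⟨z, r⟩, rest⟩ hp ⟨x', ⟨z', r'⟩, rest'⟩ hp' h
    simp only [Prod.mk.injEq] at h
    obtain ⟨h1, h2⟩ := h
    have hlen : (List.ofFn (tw K n 0 x z) ++ (List.ofFn r ++ List.ofFn rest)).length = Q := by
      simp [← hR]
    have hlen' : (List.ofFn (tw K n 0 x' z') ++ (List.ofFn r' ++ List.ofFn rest')).length = Q := by
      simp [← hR]
    have h3 : List.ofFn (tw K n 0 x z) ++ (List.ofFn r ++ List.ofFn rest) =
        List.ofFn (tw K n 0 x' z') ++ (List.ofFn r' ++ List.ofFn rest') := by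
      rw [← ofFn_getD_eq _ hlen, ← ofFn_getD_eq _ hlen', h2]
    obtain ⟨h4, h5⟩ := List.append_inj h3 (by simp)
    obtain ⟨h6, h7⟩ := List.append_inj h5 (by simp)
    have h4' := List.ofFn_injective h4
    have h6' := List.ofFn_injective h6
    have h7' := List.ofFn_injective h7
    have hz : z = z' := by
      have := tw_tw hKo hn0 hT x z
      rw [h1, h4', tw_tw hKo hn0 hT x' z'] at this
      exact this.symm
    have hx : x = x' := by
      have := xf_tw hKo hn0 hT x z
      rw [h4', xf_tw hKo hn0 hT x' z'] at this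
      exact this.symm
    rw [hz, hx, h6', h7']

/-! ### Few bad inputs -/

theorem card_copy_d (n M κ : ℕ) (hκ : κ = 8 * (n ^ 2) ^ 2 * M ^ 2) :
    2 * n * (univ.filter fun u : Fin n → Fin (2 * κ + 1) → Bool => ∃ b, mgF (u b) < M).card ≤
      2 ^ (n * (2 * κ + 1)) := by
  classical
  set K := 2 * κ + 1 with hK
  set S := (univ.filter fun w : Fin K → Bool => mgF w < M) with hS
  have h1 : (univ.filter fun u : Fin n → Fin K → Bool => ∃ b, mgF (u b) < M) ⊆
      (univ : Finset (Fin n)).biUnion fun b =>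
        (univ.filter fun u : Fin n → Fin K → Bool => u b ∈ S) := by
    intro u hu
    rw [Finset.mem_filter] at hu
    obtain ⟨b, hb⟩ := hu.2
    rw [Finset.mem_biUnion]
    refine ⟨b, Finset.mem_univ _, ?_⟩
    rw [Finset.mem_filter, hS, Finset.mem_filter]
    exact ⟨Finset.mem_univ _, Finset.mem_univ _, hb⟩
  have h2 : (univ.filter fun u : Fin n → Fin K → Bool => ∃ b, mgF (u b) < M).card * 2 ^ K ≤
      n * (S.card * 2 ^ (n * K)) := by
    calc _ ≤ (∑ b : Fin n, (univ.filter fun u : Fin n → Fin K → Bool => u b ∈ S).card) *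
          2 ^ K := Nat.mul_le_mul_right _ ((Finset.card_le_card h1).trans Finset.card_biUnion_le)
      _ = ∑ b : Fin n, (univ.filter fun u : Fin n → Fin K → Bool => u b ∈ S).card * 2 ^ K := by
          rw [Finset.sum_mul]
      _ = ∑ _b : Fin n, S.card * 2 ^ (n * K) :=
          Finset.sum_congr rfl fun b _ => card_blk n K S b
      _ = n * (S.card * 2 ^ (n * K)) := by
          rw [Finset.sum_const, Finset.card_fin, smul_eq_mul]
  have h3 := card_bd_le (n ^ 2) M κ hκ
  rw [← hK, ← hS] at h3
  have hpos : 0 < 2 ^ K := by positivity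
  have h4 : 2 * n * (univ.filter fun u : Fin n → Fin K → Bool => ∃ b, mgF (u b) < M).card *
      2 ^ K ≤ 2 ^ (n * K) * 2 ^ K := by
    calc _ = 2 * n * ((univ.filter fun u : Fin n → Fin K → Bool => ∃ b, mgF (u b) < M).card *
          2 ^ K) := by ring
      _ ≤ 2 * n * (n * (S.card * 2 ^ (n * K))) := Nat.mul_le_mul_left _ h2
      _ = (2 * n ^ 2 * S.card) * 2 ^ (n * K) := by ring
      _ ≤ 2 ^ K * 2 ^ (n * K) := Nat.mul_le_mul_right _ h3
      _ = 2 ^ (n * K) * 2 ^ K := by ring
  exact Nat.le_of_mul_le_mul_right h4 hpos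

open Classical in
theorem bad_count_d (n M κ N : ℕ) (hκ : κ = 8 * (n ^ 2) ^ 2 * M ^ 2)
    (hT : n * (2 * κ + 1) ≤ N) (hn : 0 < n) :
    (univ.filter fun z : Fin N → Bool => ¬ M ≤ gg (List.ofFn z) (2 * κ + 1) n 0).card *
      (2 * n) ≤ 2 ^ N := by
  set K := 2 * κ + 1 with hK
  set T := n * K with hTd
  set C := (univ.filter fun u : Fin n → Fin K → Bool => ∃ b, mgF (u b) < M) with hC
  have h1 : (univ.filter fun z : Fin N → Bool => ¬ M ≤ gg (List.ofFn z) K n 0).card ≤
      (C ×ˢ (univ : Finset (Fin (N - T) → Bool))).card := by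
    refine Finset.card_le_card_of_injOn (fun z =>
      ((fun (b : Fin n) => blkOf K n z 0 b),
        (fun i : Fin (N - T) => (List.ofFn z).getD (T + i) false))) ?_ ?_
    · intro z hz
      have hz2 := (Finset.mem_filter.1 (Finset.mem_coe.1 hz)).2
      rw [Finset.mem_coe, Finset.mem_product]
      refine ⟨?_, Finset.mem_univ _⟩
      rw [hC, Finset.mem_filter]
      refine ⟨Finset.mem_univ _, ?_⟩
      obtain ⟨b, hb, e⟩ := exists_gg (List.ofFn z) 0 hK hn
      refine ⟨⟨b, hb⟩, ?_⟩
      change mgF (blkOf K n z 0 b) < M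
      rw [← mg_blkOf, ← e]
      omega
    · intro z _ z' _ h
      rw [Prod.mk.injEq] at h
      obtain ⟨hA, hB⟩ := h
      funext k
      have key : ∀ w : Fin N → Bool, (List.ofFn w).getD k false = w k := by
        intro w
        rw [getD_ofFn, dif_pos k.2]
      rw [← key z, ← key z']
      by_cases hk : (k : ℕ) < T
      · have hK0 : 0 < K := by omega
        set s := (k : ℕ) / K with hs
        have e1 : s * K + k % K = k := Nat.div_add_mod' k K
        have hsn : s < n := by
          rw [hs, Nat.div_lt_iff_lt_mul hK0]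
          exact hk
        have h3 := congrFun (congrFun hA ⟨s, hsn⟩) ⟨k % K, Nat.mod_lt _ hK0⟩
        unfold blkOf at h3
        simp only [Nat.zero_mul, Nat.zero_add, e1] at h3
        exact h3
      · have h3 := congrFun hB ⟨k - T, by omega⟩
        simp only at h3
        have e : T + (k - T) = k := by omega
        rwa [e] at h3
  have h2 : 2 * n * C.card ≤ 2 ^ T := card_copy_d n M κ hκ
  rw [Finset.card_product, Finset.card_univ] at h1
  have h4 : Fintype.card (Fin (N - T) → Bool) = 2 ^ (N - T) := by simp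
  rw [h4] at h1
  calc (univ.filter fun z : Fin N → Bool => ¬ M ≤ gg (List.ofFn z) K n 0).card * (2 * n)
      ≤ (C.card * 2 ^ (N - T)) * (2 * n) := Nat.mul_le_mul_right _ h1
    _ = (2 * n * C.card) * 2 ^ (N - T) := by ring
    _ ≤ 2 ^ T * 2 ^ (N - T) := Nat.mul_le_mul_right _ h2
    _ = 2 ^ N := by rw [← pow_add]; congr 1; omega

/-- The function is inverted with vanishing probability only. -/
def Vanishing (f : List Bool → List Bool) : Prop :=
  PolyTime f ∧ ∀ A : List Bool → List Bool, PolyTime A → ∀ (q : Polynomial ℕ) (c : ℕ),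
    ∀ᶠ n in atTop, c * invCount f A n (q.eval n) ≤ 2 ^ (n + q.eval n)

theorem vanishing_fd {f : List Bool → List Bool} {B : Polynomial ℕ}
    (hB : ∀ x, (f x).length ≤ B.eval x.length) (hf : OneWay f) {d : ℕ} (hd : 1 ≤ d) :
    Vanishing (fd B d f) := by
  classical
  have hfp : NPC.Poly f := H622R2.poly_of_polyTime hf.1
  refine ⟨H622R2.polyTime_of_poly_list (poly_fd B d hfp), ?_⟩
  intro A hA q c
  have hAp : NPC.Poly A := H622R2.poly_of_polyTime hA
  have hal : PolyTime (algd B d q f A) := H622R2.polyTime_of_poly_list (poly_algd B d q hfp hAp)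
  have h1 := hf.2 (algd B d q f A) hal (qd B d q) 1
  have htend := nT_tendsto (Td_zero B d) (le_Td B d)
  have h2 := htend.eventually h1
  have h3 := htend.eventually (eventually_ge_atTop (2 * c + 1))
  filter_upwards [h2, h3] with N h2 h3
  obtain ⟨n, hn⟩ : ∃ n, nT (Td B d) N = n := ⟨_, rfl⟩
  obtain ⟨K, hK⟩ : ∃ K, (Kd B d).eval n = K := ⟨_, rfl⟩
  obtain ⟨m, hm⟩ : ∃ m, (mP B).eval n = m := ⟨_, rfl⟩
  rw [hn] at h2 h3
  have hn0 : 0 < n := by omega
  have hKo := Kd_eval B d n
  rw [hK, hm] at hKo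
  have hspec := nT_spec (Td_zero B d) (le_Td B d) N
  rw [hn] at hspec
  have hT := hspec.1
  have hlt := hspec.2
  rw [Td_eval, hK] at hT
  have hT' : n * K ≤ N := (Nat.le_mul_of_pos_left _ hn0).trans hT
  have hRle : N + q.eval N ≤ (qd B d q).eval n := by
    rw [qd_eval]
    have := eval_mono q hlt.le
    omega
  obtain ⟨R, hR⟩ := Nat.exists_eq_add_of_le hRle
  have key := countd (A := A) hB hd q hn hK hm hn0 (R := R) (by omega)
  have hbad := bad_count_d n (m * d) _ N rfl (by rw [← hKo]; exact hT') hn0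
  rw [← hKo] at hbad
  set S := (univ.filter fun p : (Fin N → Bool) × (Fin (q.eval N) → Bool) =>
      fd B d f (A (List.replicate N true ++ false :: (List.ofFn p.2 ++ fd B d f (List.ofFn p.1)))) =
        fd B d f (List.ofFn p.1) ∧ m * d ≤ gg (List.ofFn p.1) K n 0) with hS
  set Bd := (univ.filter fun z : Fin N → Bool => ¬ m * d ≤ gg (List.ofFn z) K n 0) with hBd
  set I := invCount (fd B d f) A N (q.eval N) with hI
  have hle : I ≤ S.card + Bd.card * 2 ^ q.eval N := by
    rw [hI]
    unfold invCount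
    calc _ ≤ (S ∪ (Bd ×ˢ (univ : Finset (Fin (q.eval N) → Bool)))).card := by
          apply Finset.card_le_card
          intro p hp
          rw [Finset.mem_filter] at hp
          rw [Finset.mem_union]
          by_cases h : m * d ≤ gg (List.ofFn p.1) K n 0
          · left
            rw [hS, Finset.mem_filter]
            exact ⟨Finset.mem_univ _, hp.2, h⟩
          · right
            rw [Finset.mem_product, hBd, Finset.mem_filter]
            exact ⟨⟨Finset.mem_univ _, h⟩, Finset.mem_univ _⟩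
      _ ≤ S.card + (Bd ×ˢ (univ : Finset (Fin (q.eval N) → Bool))).card :=
          Finset.card_union_le _ _
      _ = _ := by
          rw [Finset.card_product, Finset.card_univ]
          simp
  rw [pow_one] at h2
  have e3 : 2 ^ (n + (qd B d q).eval n) = 2 ^ n * 2 ^ R * 2 ^ (N + q.eval N) := by
    rw [hR, pow_add, pow_add 2 (N + q.eval N) R]
    ring
  have e4 : (2 ^ n * 2 ^ R * (2 * n)) * (c * I) ≤ (2 ^ n * 2 ^ R * (2 * n)) * 2 ^ (N + q.eval N) := by
    have f1 : 2 ^ n * 2 ^ R * S.card * n ≤ 2 ^ n * 2 ^ R * 2 ^ (N + q.eval N) := by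
      have : 2 ^ n * 2 ^ R * S.card * n = (2 ^ n * (S.card * 2 ^ R)) * n := by ring
      rw [this, ← e3]
      exact (Nat.mul_le_mul_right _ key).trans h2.le
    have f2 : Bd.card * (2 * n) * 2 ^ q.eval N ≤ 2 ^ (N + q.eval N) := by
      rw [pow_add]
      exact Nat.mul_le_mul_right _ hbad
    calc (2 ^ n * 2 ^ R * (2 * n)) * (c * I)
        ≤ (2 ^ n * 2 ^ R * (2 * n)) * (c * (S.card + Bd.card * 2 ^ q.eval N)) :=
          Nat.mul_le_mul_left _ (Nat.mul_le_mul_left _ hle)
      _ = 2 * c * (2 ^ n * 2 ^ R * S.card * n) +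
          c * (2 ^ n * 2 ^ R * (Bd.card * (2 * n) * 2 ^ q.eval N)) := by ring
      _ ≤ 2 * c * (2 ^ n * 2 ^ R * 2 ^ (N + q.eval N)) +
          c * (2 ^ n * 2 ^ R * 2 ^ (N + q.eval N)) :=
          Nat.add_le_add (Nat.mul_le_mul_left _ f1)
            (Nat.mul_le_mul_left _ (Nat.mul_le_mul_left _ f2))
      _ = (3 * c) * (2 ^ n * 2 ^ R * 2 ^ (N + q.eval N)) := by ring
      _ ≤ (2 * n) * (2 ^ n * 2 ^ R * 2 ^ (N + q.eval N)) := Nat.mul_le_mul_right _ (by omega)
      _ = _ := by ring
  exact Nat.le_of_mul_le_mul_left e4 (by positivity)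

end Pool.Agent.NPC.L5h57.OX
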