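import Pool.Agent.L5helper57.OX.WeakRed

/-!
# Amplification: from vanishing to negligible inversion probability
-/

set_option autoImplicit false

namespace Pool.Agent.NPC.L5h57.OX

open Pool.Agent.NPC Pool.Agent.NPC.L5h57.OW Finset Filter

/-! ### Self-delimiting codes -/

/-- a self-delimiting code -/
def code1 (y : List Bool) : List Bool := (y.flatMap fun b => [true, b]) ++ [false]

theorem code1_prefix : ∀ (y y' s s' : List Bool), code1 y ++ s = code1 y' ++ s' →
    y = y' ∧ s = s'
  | [], [], s, s', h => by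
    simp [code1] at h
    exact ⟨rfl, h⟩
  | [], b :: y', s, s', h => by simp [code1] at h
  | b :: y, [], s, s', h => by simp [code1] at h
  | b :: y, b' :: y', s, s', h => by
    have h1 : b = b' ∧ code1 y ++ s = code1 y' ++ s' := by
      simpa [code1] using h
    have h2 := code1_prefix y y' s s' h1.2
    exact ⟨by rw [h1.1, h2.1], h2.2⟩

theorem codes_inj : ∀ (L L' : List (List Bool)), L.flatMap code1 = L'.flatMap code1 → L = L'
  | [], [], _ => rfl
  | [], y :: L', h => by simp [code1] at h
  | y :: L, [], h => by simp [code1] at h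
  | y :: L, y' :: L', h => by
    rw [List.flatMap_cons, List.flatMap_cons] at h
    obtain ⟨h1, h2⟩ := code1_prefix _ _ _ _ h
    rw [h1, codes_inj L L' h2]

/-! ### The direct product -/

/-- number of bits used -/
noncomputable def Ty : Polynomial ℕ := Polynomial.X * Polynomial.X

theorem Ty_eval (n : ℕ) : Ty.eval n = n * n := by
  unfold Ty
  simp

theorem Ty_zero : Ty.eval 0 = 0 := by rw [Ty_eval]

theorem le_Ty (n : ℕ) : n ≤ Ty.eval n := by
  rw [Ty_eval]
  exact Nat.le_mul_self n

/-- a block -/
def blk (z : List Bool) (n i : ℕ) : List Bool := slice z (i * n) n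

/-- the direct product -/
noncomputable def gY (f : List Bool → List Bool) (z : List Bool) : List Bool :=
  (List.range (nT Ty z.length)).flatMap fun i => code1 (f (blk z (nT Ty z.length) i))

theorem poly_blk {α : Type} [TEnc α] {z : α → List Bool} {n i : α → ℕ} (hz : NPC.Poly z)
    (hn : UPoly n) (hi : NPC.Poly i) : NPC.Poly (fun a => blk (z a) (n a) (i a)) := by
  unfold blk
  have hnp := hn.toPoly
  exact poly_slice hz (by fun_prop) hn

theorem poly_code1 {α : Type} [TEnc α] {y : α → List Bool} (hy : NPC.Poly y) :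
    NPC.Poly (fun a => code1 (y a)) := by
  unfold code1
  fun_prop

theorem poly_gY {f : List Bool → List Bool} (hf : NPC.Poly f) : NPC.Poly (gY f) := by
  have hn : UPoly (fun z : List Bool => nT Ty z.length) :=
    uPoly_nT _ (UPoly.length NPC.Poly.id)
  unfold gY
  refine NPC.Poly.flatMap hn.range ?_
  have h1 := NPC.Poly.fst (NPC.Poly.id (α := List Bool × ℕ))
  exact poly_code1 (hf.comp (poly_blk h1 (hn.comp h1) (NPC.Poly.snd NPC.Poly.id)))

/-- the output if the block `i` is mapped to `y` -/
def ytgt (f : List Bool → List Bool) (z y : List Bool) (n i : ℕ) : List Bool :=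
  (List.range n).flatMap fun i' => code1 (bif decide (i' = i) then y else f (blk z n i'))

/-- the number of coins for one trial -/
noncomputable def WP (q : Polynomial ℕ) : Polynomial ℕ :=
  Ty.comp (Polynomial.X + 1) + (q.comp Ty).comp (Polynomial.X + 1)

theorem WP_eval (q : Polynomial ℕ) (n : ℕ) :
    (WP q).eval n = Ty.eval (n + 1) + q.eval (Ty.eval (n + 1)) := by
  unfold WP
  simp [Polynomial.eval_comp]

/-- the inverse of the threshold -/
noncomputable def P0 (c : ℕ) : Polynomial ℕ :=
  (Polynomial.X + 1) * (Ty.comp (Polynomial.X + 1)) ^ c + 2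

theorem P0_eval (c n : ℕ) : (P0 c).eval n = (n + 1) * (Ty.eval (n + 1)) ^ c + 2 := by
  unfold P0
  simp [Polynomial.eval_comp]

/-- the number of coins -/
noncomputable def qY (q : Polynomial ℕ) (c : ℕ) : Polynomial ℕ := 2 * P0 c * WP q

theorem qY_eval (q : Polynomial ℕ) (c n : ℕ) :
    (qY q c).eval n = 2 * (P0 c).eval n * (WP q).eval n := by
  unfold qY
  simp

/-- a candidate -/
noncomputable def candy (q : Polynomial ℕ) (f A : List Bool → List Bool) (w y : List Bool)
    (n N i s : ℕ) : List Bool :=
  blk (A ((List.range N).map (fun _ => true) ++ false ::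
    (slice w (n + 1 + s * (WP q).eval n + N) (q.eval N) ++
      ytgt f (slice w (n + 1 + s * (WP q).eval n) N) y n i))) n i

/-- the rest of the input -/
noncomputable def yY (q : Polynomial ℕ) (c : ℕ) (w : List Bool) : List Bool :=
  slice w (nOf w + 1 + (qY q c).eval (nOf w)) (w.length - (nOf w + 1 + (qY q c).eval (nOf w)))

/-- the inverter -/
noncomputable def algY (q : Polynomial ℕ) (c : ℕ) (f A : List Bool → List Bool) (w : List Bool) :
    List Bool :=
  (((List.range (Ty.eval (nOf w + 1))).flatMap fun N => (List.range (nOf w)).flatMap fun i =>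
    (List.range (2 * (P0 c).eval (nOf w))).map fun s =>
      candy q f A w (yY q c w) (nOf w) (min N (Ty.eval (nOf w + 1))) i s).filter fun c' =>
        decide (f c' = yY q c w)).head?.getD []

theorem poly_yY (q : Polynomial ℕ) (c : ℕ) : NPC.Poly (yY q c) := by
  have hn := uPoly_nOf
  have hq : UPoly (fun w => (qY q c).eval (nOf w)) := UPoly.eval hn _
  have hnp := hn.toPoly
  have hqp := hq.toPoly
  unfold yY
  refine poly_slice NPC.Poly.id ?_ ?_
  · fun_prop
  · refine UPoly.of_le (n := fun w : List Bool => w.length) ?_ (UPoly.length NPC.Poly.id)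
      fun w => Nat.sub_le _ _
    fun_prop

theorem poly_ytgt {α : Type} [TEnc α] {f : List Bool → List Bool} (hf : NPC.Poly f)
    {z y : α → List Bool} {n i : α → ℕ}
    (hz : NPC.Poly z) (hy : NPC.Poly y) (hn : UPoly n) (hi : NPC.Poly i) :
    NPC.Poly (fun a => ytgt f (z a) (y a) (n a) (i a)) := by
  unfold ytgt
  refine NPC.Poly.flatMap hn.range ?_
  have h1 := NPC.Poly.fst (NPC.Poly.id (α := α × ℕ))
  have h2 := NPC.Poly.snd (NPC.Poly.id (α := α × ℕ))
  refine poly_code1 (NPC.Poly.cond ?_ (hy.comp h1) (hf.comp (poly_blk (hz.comp h1)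
    (hn.comp h1) h2)))
  exact NPC.Poly.decide_eq h2 (hi.comp h1)

theorem poly_candy {α : Type} [TEnc α] (q : Polynomial ℕ) {f A : List Bool → List Bool}
    (hf : NPC.Poly f) (hA : NPC.Poly A) {w y : α → List Bool} {n N i s : α → ℕ}
    (hw : NPC.Poly w) (hy : NPC.Poly y) (hn : UPoly n) (hN : UPoly N) (hi : NPC.Poly i)
    (hs : NPC.Poly s) :
    NPC.Poly (fun a => candy q f A (w a) (y a) (n a) (N a) (i a) (s a)) := by
  unfold candy
  have hW : UPoly (fun a => (WP q).eval (n a)) := UPoly.eval hn _
  have hnp := hn.toPoly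
  have hNp := hN.toPoly
  have hWp := hW.toPoly
  refine poly_blk (hA.comp ?_) hn hi
  refine NPC.Poly.append (NPC.Poly.map hN.range (NPC.Poly.const true)) ?_
  refine NPC.Poly.cons (NPC.Poly.const false) (NPC.Poly.append ?_ ?_)
  · exact poly_slice hw (by fun_prop) (UPoly.eval hN _)
  · exact poly_ytgt hf (poly_slice hw (by fun_prop) hN) hy hn hi

theorem poly_algY (q : Polynomial ℕ) (c : ℕ) {f A : List Bool → List Bool}
    (hf : NPC.Poly f) (hA : NPC.Poly A) : NPC.Poly (algY q c f A) := by
  have hn := uPoly_nOf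
  have hT : UPoly (fun w => Ty.eval (nOf w + 1)) := by
    have h1 := UPoly.eval (UPoly.add hn (UPoly.const 1)) Ty
    exact h1
  have hS : UPoly (fun w => 2 * (P0 c).eval (nOf w)) :=
    UPoly.mul (UPoly.const 2) (UPoly.eval hn _)
  have hy := poly_yY q c
  unfold algY
  refine NPC.Poly.optGetD (NPC.Poly.head? (NPC.Poly.filter ?_ ?_)) (NPC.Poly.const [])
  · refine NPC.Poly.flatMap hT.range ?_
    refine NPC.Poly.flatMap (hn.range.comp (NPC.Poly.fst NPC.Poly.id)) ?_
    refine NPC.Poly.map (hS.range.comp (NPC.Poly.fst (NPC.Poly.fst NPC.Poly.id))) ?_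
    have h1 : NPC.Poly (fun p : ((List Bool × ℕ) × ℕ) × ℕ => p.1.1.1) := by fun_prop
    refine poly_candy q hf hA h1 (hy.comp h1) (hn.comp h1) ?_ ?_ ?_
    · refine UPoly.of_le (n := fun p : ((List Bool × ℕ) × ℕ) × ℕ =>
        Ty.eval (nOf p.1.1.1 + 1)) ?_ (hT.comp h1) fun p => min_le_right _ _
      have := hT.toPoly.comp h1
      fun_prop
    · fun_prop
    · fun_prop
  · fun_prop

theorem algY_spec (q : Polynomial ℕ) (c : ℕ) (f A : List Bool → List Bool)
    {n : ℕ} {r y : List Bool} (hr : r.length = (qY q c).eval n) {N i s : ℕ}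
    (hN : N < Ty.eval (n + 1)) (hi : i < n) (hs : s < 2 * (P0 c).eval n)
    (h : f (candy q f A (List.replicate n true ++ false :: (r ++ y)) y n N i s) = y) :
    f (algY q c f A (List.replicate n true ++ false :: (r ++ y))) = y := by
  set w := List.replicate n true ++ false :: (r ++ y) with hw
  have hn : nOf w = n := nOf_eq _ _
  have hy : yY q c w = y := by
    unfold yY
    rw [hn, hw]
    have e : List.replicate n true ++ false :: (r ++ y) =
        (List.replicate n true ++ false :: r) ++ y := by simp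
    rw [e]
    apply slice_end
    · simp [hr]; omega
    · simp [hr]; omega
  unfold algY
  rw [hn, hy]
  set l := ((List.range (Ty.eval (n + 1))).flatMap fun N => (List.range n).flatMap fun i =>
    (List.range (2 * (P0 c).eval n)).map fun s =>
      candy q f A w y n (min N (Ty.eval (n + 1))) i s) with hl
  have hmem : candy q f A w y n N i s ∈ l.filter fun c' => decide (f c' = y) := by
    rw [List.mem_filter, hl, List.mem_flatMap]
    refine ⟨⟨N, List.mem_range.2 hN, ?_⟩, by rw [decide_eq_true_iff]; exact h⟩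
    rw [List.mem_flatMap]
    refine ⟨i, List.mem_range.2 hi, ?_⟩
    rw [List.mem_map]
    exact ⟨s, List.mem_range.2 hs, by rw [min_eq_left hN.le]⟩
  have hall : ∀ c' ∈ l.filter fun c' => decide (f c' = y), f c' = y := by
    intro c' hc
    rw [List.mem_filter] at hc
    exact of_decide_eq_true hc.2
  revert hmem hall
  cases l.filter fun c' => decide (f c' = y) with
  | nil => intro hmem; exact absurd hmem (List.not_mem_nil)
  | cons c' l' =>
    intro _ hall
    exact hall c' (List.mem_cons_self)

/-! ### Replacing a block -/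

/-- replace the block `i` by `x` -/
def rp {N n : ℕ} (i : ℕ) (x : Fin n → Bool) (z : Fin N → Bool) : Fin N → Bool := fun k =>
  if (k : ℕ) / n = i then (List.ofFn x).getD ((k : ℕ) % n) false else z k

/-- the block `i` -/
def xb {N : ℕ} (n i : ℕ) (z : Fin N → Bool) : Fin n → Bool := fun b =>
  (List.ofFn z).getD (i * n + b) false

theorem blk_ofFn {N : ℕ} (n i : ℕ) (z : Fin N → Bool) :
    blk (List.ofFn z) n i = List.ofFn (xb n i z) := by
  unfold blk OW.slice xb
  apply List.ext_getElem
  · simp
  · intro k h1 h2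
    simp

section

variable {N n i : ℕ}

theorem fit (hi : i < n) (hT : n * n ≤ N) {b : ℕ} (hb : b < n) : i * n + b < N := by
  have : i * n + n ≤ n * n := by
    calc i * n + n = (i + 1) * n := by ring
      _ ≤ n * n := Nat.mul_le_mul_right _ hi
  omega

theorem xb_rp (hi : i < n) (hT : n * n ≤ N) (x : Fin n → Bool) (z : Fin N → Bool) :
    xb n i (rp i x z) = x := by
  funext b
  unfold xb
  rw [getD_ofFn, dif_pos (fit hi hT b.2)]
  unfold rp
  rw [if_pos (div_blk b.2), mod_blk b.2, getD_ofFn, dif_pos b.2]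

theorem xb_rp_ne {i' : ℕ} (hi' : i' < n) (hT : n * n ≤ N) (hne : i' ≠ i) (x : Fin n → Bool)
    (z : Fin N → Bool) : xb n i' (rp i x z) = xb n i' z := by
  funext b
  unfold xb
  rw [getD_ofFn, dif_pos (fit hi' hT b.2), getD_ofFn, dif_pos (fit hi' hT b.2)]
  unfold rp
  rw [if_neg]
  simp only
  rw [div_blk b.2]
  exact hne

theorem rp_rp (x : Fin n → Bool) (z : Fin N → Bool) (hn : 0 < n) :
    rp i (xb n i z) (rp i x z) = z := by
  funext k
  unfold rp
  by_cases hk : (k : ℕ) / n = i
  · rw [if_pos hk, getD_ofFn, dif_pos (Nat.mod_lt _ hn)]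
    unfold xb
    simp only
    rw [← hk, Nat.div_add_mod', getD_ofFn, dif_pos k.2]
  · rw [if_neg hk, if_neg hk]

theorem ytgt_eq (f : List Bool → List Bool) (hn : nT Ty N = n) (hi : i < n)
    (x : Fin n → Bool) (z : Fin N → Bool) :
    ytgt f (List.ofFn z) (f (List.ofFn x)) n i = gY f (List.ofFn (rp i x z)) := by
  have hT := (nT_spec Ty_zero le_Ty N).1
  rw [hn, Ty_eval] at hT
  have hl : (List.ofFn (rp i x z)).length = N := by simp
  unfold ytgt gY
  rw [hl, hn]
  refine List.flatMap_congr fun i' hi' => ?_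
  have hi'n := List.mem_range.1 hi'
  rw [blk_ofFn, blk_ofFn]
  by_cases h : i' = i
  · rw [decide_eq_true h, cond_true, h, xb_rp hi hT]
  · rw [decide_eq_false h, cond_false, xb_rp_ne hi'n hT h]

end

theorem read_Y {f : List Bool → List Bool} {z z' : List Bool} {n i : ℕ}
    (hn : nT Ty z.length = n) (hi : i < n) (h : gY f z' = gY f z) :
    f (blk z' n i) = f (blk z n i) := by
  have e : ∀ w : List Bool, gY f w =
      ((List.range (nT Ty w.length)).map fun i => f (blk w (nT Ty w.length) i)).flatMap code1 := by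
    intro w
    unfold gY
    rw [List.flatMap_map]
  rw [e, e] at h
  have h1 := codes_inj _ _ h
  have h2 := congrArg List.length h1
  rw [List.length_map, List.length_map, List.length_range, List.length_range] at h2
  rw [h2, hn] at h1
  have h3 := List.map_inj_left.1 h1 i (List.mem_range.2 hi)
  exact h3

end Pool.Agent.NPC.L5h57.OX
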