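import Pool.Agent.L5helper57.OX.Yao

/-!
# Amplification: counting
-/

set_option autoImplicit false

namespace Pool.Agent.NPC.L5h57.OX

open Pool.Agent.NPC Pool.Agent.NPC.L5h57.OW Finset Filter

/-- the inverter `A` for the direct product succeeds on the input `z` with the coins `r` -/
def InvY (f A : List Bool → List Bool) {N q : ℕ} (z : Fin N → Bool) (r : Fin q → Bool) : Prop :=
  gY f (A (List.replicate N true ++ false :: (List.ofFn r ++ gY f (List.ofFn z)))) =
    gY f (List.ofFn z)

open Classical in
/-- number of successes if the block `i` is `x` -/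
noncomputable def cnt (f A : List Bool → List Bool) (N q : ℕ) {n : ℕ} (i : ℕ) (x : Fin n → Bool) :
    ℕ :=
  (univ.filter fun p : (Fin N → Bool) × (Fin q → Bool) => InvY f A (rp i x p.1) p.2).card

/-- the inverter has a good chance if `x` is one of the blocks -/
def GoodY (f A : List Bool → List Bool) (N q P : ℕ) {n : ℕ} (x : Fin n → Bool) : Prop :=
  ∃ i < n, 2 ^ (N + q) ≤ P * cnt f A N q i x

theorem bern (k m : ℕ) : k ^ (m + 1) + (m + 1) * k ^ m ≤ (k + 1) ^ (m + 1) := by
  induction m with
  | zero => simp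
  | succ m ih =>
    calc k ^ (m + 1 + 1) + (m + 1 + 1) * k ^ (m + 1)
        ≤ (k ^ (m + 1) + (m + 1) * k ^ m) * (k + 1) := by
          have : (k ^ (m + 1) + (m + 1) * k ^ m) * (k + 1) =
            k ^ (m + 1 + 1) + (m + 1 + 1) * k ^ (m + 1) + (m + 1) * k ^ m := by ring
          omega
      _ ≤ (k + 1) ^ (m + 1) * (k + 1) := Nat.mul_le_mul_right _ ih
      _ = (k + 1) ^ (m + 1 + 1) := (pow_succ _ _).symm

theorem four_pow (k : ℕ) : 4 * k ^ (2 * (k + 1)) ≤ (k + 1) ^ (2 * (k + 1)) := by
  have h := bern k k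
  have h1 : 2 * k ^ (k + 1) ≤ (k + 1) ^ (k + 1) := by
    have : (k + 1) * k ^ k = k ^ (k + 1) + k ^ k := by ring
    have h0 : 0 ≤ k ^ k := Nat.zero_le _
    omega
  calc 4 * k ^ (2 * (k + 1)) = (2 * k ^ (k + 1)) ^ 2 := by
        rw [mul_pow, ← pow_mul, mul_comm (k + 1) 2]
        norm_num
    _ ≤ ((k + 1) ^ (k + 1)) ^ 2 := Nat.pow_le_pow_left h1 2
    _ = (k + 1) ^ (2 * (k + 1)) := by rw [← pow_mul, mul_comm]

/-- The trial number `s` succeeds. -/
theorem candy_good {f A : List Bool → List Bool} (q : Polynomial ℕ) {N n i : ℕ}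
    (hn : nT Ty N = n) (hi : i < n) (x : Fin n → Bool) (z : Fin N → Bool)
    (r : Fin (q.eval N) → Bool) (pre post : List Bool) {s : ℕ}
    (hpre : pre.length = s * (WP q).eval n)
    (h : InvY f A (rp i x z) r) :
    f (candy q f A (List.replicate n true ++ false ::
      ((pre ++ (List.ofFn z ++ (List.ofFn r ++ post))) ++ f (List.ofFn x))) (f (List.ofFn x))
        n N i s) = f (List.ofFn x) := by
  have hT := (nT_spec Ty_zero le_Ty N).1
  rw [hn, Ty_eval] at hT
  have e1 : slice (List.replicate n true ++ false ::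
      ((pre ++ (List.ofFn z ++ (List.ofFn r ++ post))) ++ f (List.ofFn x)))
        (n + 1 + s * (WP q).eval n) N = List.ofFn z := by
    have e : List.replicate n true ++ false ::
      ((pre ++ (List.ofFn z ++ (List.ofFn r ++ post))) ++ f (List.ofFn x)) =
      (List.replicate n true ++ [false] ++ pre) ++ (List.ofFn z ++ ((List.ofFn r ++ post) ++
        f (List.ofFn x))) := by simp
    rw [e]
    exact slice_append' _ _ _ (by simp [hpre]; omega) (by simp)
  have e2 : slice (List.replicate n true ++ false ::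
      ((pre ++ (List.ofFn z ++ (List.ofFn r ++ post))) ++ f (List.ofFn x)))
        (n + 1 + s * (WP q).eval n + N) (q.eval N) = List.ofFn r := by
    have e : List.replicate n true ++ false ::
      ((pre ++ (List.ofFn z ++ (List.ofFn r ++ post))) ++ f (List.ofFn x)) =
      (List.replicate n true ++ [false] ++ pre ++ List.ofFn z) ++ (List.ofFn r ++ (post ++
        f (List.ofFn x))) := by simp
    rw [e]
    exact slice_append' _ _ _ (by simp [hpre]; omega) (by simp)
  have e3 : (List.range N).map (fun _ => true) = List.replicate N true := by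
    rw [List.map_const', List.length_range]
  unfold candy
  rw [e1, e2, e3, ytgt_eq f hn hi x z]
  have hl : (List.ofFn (rp i x z)).length = N := by simp
  have h1 := read_Y (f := f) (z := List.ofFn (rp i x z)) (by rw [hl]; exact hn) hi h
  rw [h1, blk_ofFn, xb_rp hi hT]

open Classical in
/-- **Repeated trials.** -/
theorem good_x {f A : List Bool → List Bool} (q : Polynomial ℕ) (c : ℕ) {N n : ℕ}
    (hn : nT Ty N = n) {x : Fin n → Bool}
    (hx : GoodY f A N (q.eval N) ((P0 c).eval n) x) :
    4 * (univ.filter fun r : Fin ((qY q c).eval n) → Bool =>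
      ¬ f (algY q c f A (List.replicate n true ++ false :: (List.ofFn r ++ f (List.ofFn x)))) =
        f (List.ofFn x)).card ≤ 2 ^ (qY q c).eval n := by
  obtain ⟨i, hi, hcnt⟩ := hx
  have hlt := (nT_spec Ty_zero le_Ty N).2
  rw [hn] at hlt
  obtain ⟨p, hp⟩ : ∃ p, (P0 c).eval n = p + 1 := ⟨(P0 c).eval n - 1, by
    have := P0_eval c n
    omega⟩
  obtain ⟨W, hW⟩ : ∃ W, (WP q).eval n = W := ⟨_, rfl⟩
  have hQ : (qY q c).eval n = (2 * (p + 1)) * W := by rw [qY_eval, hp, hW]
  have hWle : N + q.eval N ≤ W := by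
    rw [← hW, WP_eval]
    have := eval_mono q hlt.le
    omega
  obtain ⟨R, hR⟩ := Nat.exists_eq_add_of_le hWle
  set Q := (qY q c).eval n with hQd
  set S := (univ.filter fun p : (Fin N → Bool) × (Fin (q.eval N) → Bool) =>
    InvY f A (rp i x p.1) p.2) with hS
  have hScard : S.card = cnt f A N (q.eval N) i x := rfl
  set F := (univ.filter fun r : Fin Q → Bool =>
      ¬ f (algY q c f A (List.replicate n true ++ false :: (List.ofFn r ++ f (List.ofFn x)))) =
        f (List.ofFn x)) with hF
  set E := Sᶜ ×ˢ (univ : Finset (Fin R → Bool)) with hE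
  have hinj : F.card ≤ (Fintype.piFinset fun _ : Fin (2 * (p + 1)) => E).card := by
    refine Finset.card_le_card_of_injOn (fun r => fun s : Fin (2 * (p + 1)) =>
      (((fun k : Fin N => (List.ofFn r).getD (s * W + k) false),
        (fun k : Fin (q.eval N) => (List.ofFn r).getD (s * W + N + k) false)),
        (fun k : Fin R => (List.ofFn r).getD (s * W + N + q.eval N + k) false))) ?_ ?_
    · intro r hr
      rw [Finset.mem_coe, hF, Finset.mem_filter] at hr
      rw [Finset.mem_coe, Fintype.mem_piFinset]
      intro s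
      rw [hE, Finset.mem_product]
      refine ⟨?_, Finset.mem_univ _⟩
      rw [Finset.mem_compl, hS, Finset.mem_filter]
      rintro ⟨_, hinv⟩
      apply hr.2
      simp only at hinv
      have hsW : (s : ℕ) * W + W ≤ Q := by
        rw [hQ]
        calc (s : ℕ) * W + W = (s + 1) * W := by ring
          _ ≤ (2 * (p + 1)) * W := Nat.mul_le_mul_right _ s.2
      have hlen : (List.ofFn r).length = Q := by simp
      have hdec : List.ofFn r = (List.ofFn r).take (s * W) ++
          (List.ofFn (fun k : Fin N => (List.ofFn r).getD (s * W + k) false) ++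
          (List.ofFn (fun k : Fin (q.eval N) => (List.ofFn r).getD (s * W + N + k) false) ++
          (List.ofFn r).drop (s * W + N + q.eval N))) := by
        have hd : ∀ (l : List Bool) (a b : ℕ), a + b ≤ l.length →
            l.drop a = List.ofFn (fun k : Fin b => l.getD (a + k) false) ++ l.drop (a + b) := by
          intro l a b hab
          apply List.ext_getElem
          · simp
            omega
          · intro k h1 h2
            rw [List.getElem_drop]
            by_cases hk : k < b
            · rw [List.getElem_append_left (by simpa using hk), List.getElem_ofFn,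
                List.getD_eq_getElem _ _ (by rw [List.length_drop] at h1; omega)]
            · rw [List.getElem_append_right (by simp; omega), List.getElem_drop]
              congr 1
              simp
              omega
        rw [← hd (List.ofFn r) (s * W + N) (q.eval N) (by rw [hlen]; omega),
          ← hd (List.ofFn r) (s * W) N (by rw [hlen]; omega), List.take_append_drop]
      have hp0 : (P0 c).eval n = p + 1 := hp
      refine algY_spec q c f A (r := List.ofFn r) (N := N) (i := i) (s := s)
        (by rw [hlen]) hlt hi (by rw [hp0]; exact s.2) ?_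
      rw [hdec]
      refine candy_good q hn hi x _ _ _ _ ?_ hinv
      rw [List.length_take, hlen, hW]
      omega
    · intro r _ r' _ h
      funext k
      have key : ∀ w : Fin Q → Bool, (List.ofFn w).getD k false = w k := by
        intro w
        rw [getD_ofFn, dif_pos k.2]
      rw [← key r, ← key r']
      have hW0 : 0 < W := by
        rcases Nat.eq_zero_or_pos W with h0 | h0
        · exfalso
          have := lt_of_lt_of_eq k.2 hQ
          rw [h0, Nat.mul_zero] at this
          exact Nat.not_lt_zero _ this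
        · exact h0
      have hs : (k : ℕ) / W < 2 * (p + 1) := by
        rw [Nat.div_lt_iff_lt_mul hW0, ← hQ]
        exact k.2
      have h1 := congrFun h ⟨(k : ℕ) / W, hs⟩
      simp only [Prod.mk.injEq] at h1
      obtain ⟨⟨h2, h3⟩, h4⟩ := h1
      have hk : (k : ℕ) / W * W + k % W = k := Nat.div_add_mod' _ _
      have hm : (k : ℕ) % W < W := Nat.mod_lt _ hW0
      by_cases c1 : (k : ℕ) % W < N
      · have := congrFun h2 ⟨(k : ℕ) % W, c1⟩
        simp only [hk] at this
        exact this
      · by_cases c2 : (k : ℕ) % W < N + q.eval N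
        · have := congrFun h3 ⟨(k : ℕ) % W - N, by omega⟩
          simp only at this
          have e : (k : ℕ) / W * W + N + (k % W - N) = k := by omega
          rwa [e] at this
        · have := congrFun h4 ⟨(k : ℕ) % W - N - q.eval N, by omega⟩
          simp only at this
          have e : (k : ℕ) / W * W + N + q.eval N + (k % W - N - q.eval N) = k := by omega
          rwa [e] at this
  rw [Fintype.card_piFinset, Finset.prod_const, Finset.card_fin, hE, Finset.card_product,
    Finset.card_univ] at hinj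
  have hR2 : Fintype.card (Fin R → Bool) = 2 ^ R := by simp
  rw [hR2] at hinj
  have hc : Sᶜ.card + S.card = 2 ^ (N + q.eval N) := by
    rw [Finset.card_compl_add_card]
    simp [pow_add]
  have hcnt2 : 2 ^ (N + q.eval N) ≤ (p + 1) * S.card := by rw [hScard, ← hp]; exact hcnt
  have h5 : Sᶜ.card * 2 ^ R * (p + 1) ≤ 2 ^ W * p := by
    have h6 : Sᶜ.card * (p + 1) ≤ 2 ^ (N + q.eval N) * p := by
      have : Sᶜ.card * (p + 1) + S.card * (p + 1) = 2 ^ (N + q.eval N) * (p + 1) := by
        rw [← add_mul, hc]
      have e : 2 ^ (N + q.eval N) * (p + 1) = 2 ^ (N + q.eval N) * p + 2 ^ (N + q.eval N) := by ring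
      have e2 : S.card * (p + 1) = (p + 1) * S.card := mul_comm _ _
      omega
    calc Sᶜ.card * 2 ^ R * (p + 1) = (Sᶜ.card * (p + 1)) * 2 ^ R := by ring
      _ ≤ (2 ^ (N + q.eval N) * p) * 2 ^ R := Nat.mul_le_mul_right _ h6
      _ = 2 ^ W * p := by rw [hR, pow_add 2 (N + q.eval N) R]; ring
  have h7 : (4 * F.card) * (p + 1) ^ (2 * (p + 1)) ≤ 2 ^ Q * (p + 1) ^ (2 * (p + 1)) := by
    calc (4 * F.card) * (p + 1) ^ (2 * (p + 1))
        ≤ (4 * (Sᶜ.card * 2 ^ R) ^ (2 * (p + 1))) * (p + 1) ^ (2 * (p + 1)) :=
          Nat.mul_le_mul_right _ (Nat.mul_le_mul_left _ hinj)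
      _ = 4 * (Sᶜ.card * 2 ^ R * (p + 1)) ^ (2 * (p + 1)) := by rw [mul_pow _ (p + 1)]; ring
      _ ≤ 4 * (2 ^ W * p) ^ (2 * (p + 1)) :=
          Nat.mul_le_mul_left _ (Nat.pow_le_pow_left h5 _)
      _ = 2 ^ Q * (4 * p ^ (2 * (p + 1))) := by
          rw [mul_pow, ← pow_mul, hQ, mul_comm W]
          ring
      _ ≤ 2 ^ Q * (p + 1) ^ (2 * (p + 1)) := Nat.mul_le_mul_left _ (four_pow p)
  exact Nat.le_of_mul_le_mul_right h7 (by positivity)

open Classical in
/-- Few inputs are good if `f` cannot be inverted well. -/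
theorem few_good {f A : List Bool → List Bool} (q : Polynomial ℕ) (c : ℕ) {N n : ℕ}
    (hn : nT Ty N = n)
    (h : 3 * invCount f (algY q c f A) n ((qY q c).eval n) ≤ 2 ^ (n + (qY q c).eval n)) :
    2 * (univ.filter fun x : Fin n → Bool =>
      GoodY f A N (q.eval N) ((P0 c).eval n) x).card ≤ 2 ^ n := by
  set Q := (qY q c).eval n with hQ
  set G := (univ.filter fun x : Fin n → Bool =>
      GoodY f A N (q.eval N) ((P0 c).eval n) x) with hG
  set P : (Fin n → Bool) × (Fin Q → Bool) → Prop := fun p =>
    f (algY q c f A (List.replicate n true ++ false :: (List.ofFn p.2 ++ f (List.ofFn p.1)))) =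
      f (List.ofFn p.1) with hP
  have h1 : (G ×ˢ (univ : Finset (Fin Q → Bool))).card =
      ((G ×ˢ (univ : Finset (Fin Q → Bool))).filter P).card +
      ((G ×ˢ (univ : Finset (Fin Q → Bool))).filter fun p => ¬ P p).card :=
    (Finset.card_filter_add_card_filter_not _).symm
  rw [Finset.card_product, Finset.card_univ] at h1
  have hQ2 : Fintype.card (Fin Q → Bool) = 2 ^ Q := by simp
  rw [hQ2] at h1
  have h2 : ((G ×ˢ (univ : Finset (Fin Q → Bool))).filter P).card ≤
      invCount f (algY q c f A) n Q := by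
    unfold invCount
    refine Finset.card_le_card fun p hp => ?_
    rw [Finset.mem_filter] at hp ⊢
    exact ⟨Finset.mem_univ _, hp.2⟩
  have h3 : 4 * ((G ×ˢ (univ : Finset (Fin Q → Bool))).filter fun p => ¬ P p).card ≤
      G.card * 2 ^ Q := by
    have e : ((G ×ˢ (univ : Finset (Fin Q → Bool))).filter fun p => ¬ P p).card =
        ∑ x ∈ G, (univ.filter fun r : Fin Q → Bool => ¬ P (x, r)).card := by
      rw [← Finset.card_sigma]
      refine Finset.card_bij (fun p _ => ⟨p.1, p.2⟩) ?_ ?_ ?_
      · intro p hp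
        rw [Finset.mem_filter, Finset.mem_product] at hp
        refine Finset.mem_sigma.2 ⟨hp.1.1, ?_⟩
        rw [Finset.mem_filter]
        exact ⟨Finset.mem_univ _, hp.2⟩
      · rintro ⟨x, y⟩ _ ⟨x', y'⟩ _ h
        simpa using h
      · rintro ⟨x, y⟩ h
        have h1 := (Finset.mem_sigma.1 h).1
        have h2 := (Finset.mem_sigma.1 h).2
        rw [Finset.mem_filter] at h2
        refine ⟨(x, y), ?_, rfl⟩
        rw [Finset.mem_filter, Finset.mem_product]
        exact ⟨⟨h1, Finset.mem_univ _⟩, h2.2⟩
    rw [e, Finset.mul_sum]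
    calc _ ≤ ∑ _x ∈ G, 2 ^ Q := by
          refine Finset.sum_le_sum fun x hx => ?_
          rw [hG, Finset.mem_filter] at hx
          exact good_x q c hn hx.2
      _ = _ := by rw [Finset.sum_const, smul_eq_mul]
  have h4 : (2 * G.card) * 2 ^ Q ≤ 2 ^ n * 2 ^ Q := by
    rw [← pow_add]
    have e : 2 * G.card * 2 ^ Q = 2 * (G.card * 2 ^ Q) := by ring
    rw [e]
    omega
  exact Nat.le_of_mul_le_mul_right h4 (by positivity)

open Classical in
/-- Few inputs of the direct product have only good blocks. -/
theorem all_good {N n : ℕ} (hT : n * n ≤ N) (G : Finset (Fin n → Bool))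
    (hG : 2 * G.card ≤ 2 ^ n) :
    (univ.filter fun z : Fin N → Bool => ∀ i < n, xb n i z ∈ G).card * 2 ^ n ≤ 2 ^ N := by
  have h1 : (univ.filter fun z : Fin N → Bool => ∀ i < n, xb n i z ∈ G).card ≤
      ((Fintype.piFinset fun _ : Fin n => G) ×ˢ
        (univ : Finset (Fin (N - n * n) → Bool))).card := by
    refine Finset.card_le_card_of_injOn (fun z =>
      ((fun (j : Fin n) => xb n j z),
        (fun i : Fin (N - n * n) => (List.ofFn z).getD (n * n + i) false))) ?_ ?_
    · intro z hz
      have hz2 := (Finset.mem_filter.1 (Finset.mem_coe.1 hz)).2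
      rw [Finset.mem_coe, Finset.mem_product]
      refine ⟨?_, Finset.mem_univ _⟩
      rw [Fintype.mem_piFinset]
      intro j
      exact hz2 j j.2
    · intro z _ z' _ h
      rw [Prod.mk.injEq] at h
      obtain ⟨hA, hB⟩ := h
      funext k
      have key : ∀ w : Fin N → Bool, (List.ofFn w).getD k false = w k := by
        intro w
        rw [getD_ofFn, dif_pos k.2]
      rw [← key z, ← key z']
      by_cases hk : (k : ℕ) < n * n
      · have hn0 : 0 < n := by
          rcases Nat.eq_zero_or_pos n with h | h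
          · rw [h] at hk
            omega
          · exact h
        have hj : (k : ℕ) / n < n := by
          rw [Nat.div_lt_iff_lt_mul hn0]
          exact hk
        have h3 := congrFun (congrFun hA ⟨(k : ℕ) / n, hj⟩) ⟨k % n, Nat.mod_lt _ hn0⟩
        unfold xb at h3
        simp only [Nat.div_add_mod'] at h3
        exact h3
      · have h3 := congrFun hB ⟨k - n * n, by omega⟩
        simp only at h3
        have e : n * n + (k - n * n) = k := by omega
        rwa [e] at h3
  have h3 : G.card ^ n * 2 ^ n ≤ 2 ^ (n * n) := by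
    calc G.card ^ n * 2 ^ n = (2 * G.card) ^ n := by rw [mul_pow]; ring
      _ ≤ (2 ^ n) ^ n := Nat.pow_le_pow_left hG _
      _ = 2 ^ (n * n) := by rw [← pow_mul]
  rw [Finset.card_product, Fintype.card_piFinset, Finset.prod_const, Finset.card_fin,
    Finset.card_univ] at h1
  have h4 : Fintype.card (Fin (N - n * n) → Bool) = 2 ^ (N - n * n) := by simp
  rw [h4] at h1
  calc (univ.filter fun z : Fin N → Bool => ∀ i < n, xb n i z ∈ G).card * 2 ^ n
      ≤ (G.card ^ n * 2 ^ (N - n * n)) * 2 ^ n := Nat.mul_le_mul_right _ h1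
    _ = (G.card ^ n * 2 ^ n) * 2 ^ (N - n * n) := by ring
    _ ≤ 2 ^ (n * n) * 2 ^ (N - n * n) := Nat.mul_le_mul_right _ h3
    _ = 2 ^ N := by rw [← pow_add]; congr 1; omega

open Classical in
/-- The inverter seldom succeeds if the block `i` is bad. -/
theorem bad_block {f A : List Bool → List Bool} (q : ℕ) {N n i : ℕ} (P : ℕ) (hi : i < n)
    (hT : n * n ≤ N) :
    P * (2 ^ n * (univ.filter fun p : (Fin N → Bool) × (Fin q → Bool) =>
      InvY f A p.1 p.2 ∧ ¬ GoodY f A N q P (xb n i p.1)).card) ≤ 2 ^ n * 2 ^ (N + q) := by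
  have hn0 : 0 < n := by omega
  set V := (univ.filter fun p : (Fin N → Bool) × (Fin q → Bool) =>
      InvY f A p.1 p.2 ∧ ¬ GoodY f A N q P (xb n i p.1)) with hV
  set U := (univ.filter fun p : (Fin n → Bool) × ((Fin N → Bool) × (Fin q → Bool)) =>
      ¬ GoodY f A N q P p.1 ∧ InvY f A (rp i p.1 p.2.1) p.2.2) with hU
  have h1 : ((univ : Finset (Fin n → Bool)) ×ˢ V).card ≤ U.card := by
    refine Finset.card_le_card_of_injOn (fun p => (xb n i p.2.1, (rp i p.1 p.2.1, p.2.2))) ?_ ?_
    · rintro ⟨w, z, r⟩ hp
      rw [Finset.mem_coe, Finset.mem_product, hV, Finset.mem_filter] at hp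
      rw [Finset.mem_coe, hU, Finset.mem_filter]
      refine ⟨Finset.mem_univ _, hp.2.2.2, ?_⟩
      simp only
      rw [rp_rp w z hn0]
      exact hp.2.2.1
    · rintro ⟨w, z, r⟩ _ ⟨w', z', r'⟩ _ h
      simp only [Prod.mk.injEq] at h
      obtain ⟨h1, h2, h3⟩ := h
      have e1 := rp_rp (i := i) w z hn0
      rw [h1, h2, rp_rp w' z' hn0] at e1
      have e2 := xb_rp hi hT w z
      rw [h2, xb_rp hi hT w' z'] at e2
      rw [e1, e2, h3]
  rw [Finset.card_product, Finset.card_univ] at h1
  have hn2 : Fintype.card (Fin n → Bool) = 2 ^ n := by simp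
  rw [hn2] at h1
  have h2 : P * U.card ≤ 2 ^ n * 2 ^ (N + q) := by
    have e : U.card = ∑ x : Fin n → Bool,
        (univ.filter fun p : (Fin N → Bool) × (Fin q → Bool) =>
          ¬ GoodY f A N q P x ∧ InvY f A (rp i x p.1) p.2).card := by
      rw [← Finset.card_sigma]
      refine Finset.card_bij (fun p _ => ⟨p.1, p.2⟩) ?_ ?_ ?_
      · intro p hp
        rw [hU, Finset.mem_filter] at hp
        rw [Finset.mem_sigma, Finset.mem_filter]
        exact ⟨Finset.mem_univ _, Finset.mem_univ _, hp.2⟩
      · rintro ⟨x, y⟩ _ ⟨x', y'⟩ _ h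
        simpa using h
      · rintro ⟨x, y⟩ h
        rw [Finset.mem_sigma, Finset.mem_filter] at h
        refine ⟨(x, y), ?_, rfl⟩
        rw [hU, Finset.mem_filter]
        exact ⟨Finset.mem_univ _, h.2.2⟩
    rw [e, Finset.mul_sum]
    calc _ ≤ ∑ _x : Fin n → Bool, 2 ^ (N + q) := by
          refine Finset.sum_le_sum fun x _ => ?_
          by_cases hx : GoodY f A N q P x
          · rw [Finset.filter_false_of_mem (fun p _ h => h.1 hx)]
            simp
          · have h3 : (univ.filter fun p : (Fin N → Bool) × (Fin q → Bool) =>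
                ¬ GoodY f A N q P x ∧ InvY f A (rp i x p.1) p.2).card ≤ cnt f A N q i x := by
              unfold cnt
              refine Finset.card_le_card fun p hp => ?_
              rw [Finset.mem_filter] at hp ⊢
              exact ⟨Finset.mem_univ _, hp.2.2⟩
            have h4 : ¬ 2 ^ (N + q) ≤ P * cnt f A N q i x := fun h => hx ⟨i, hi, h⟩
            have h5 := Nat.mul_le_mul_left P h3
            omega
      _ = _ := by
          rw [Finset.sum_const, Finset.card_univ, smul_eq_mul, hn2]
  calc _ ≤ P * U.card := Nat.mul_le_mul_left _ h1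
    _ ≤ _ := h2

/-- **The main estimate.** -/
theorem yao_bound {f A : List Bool → List Bool} (q : Polynomial ℕ) (c : ℕ) {N n : ℕ}
    (hn : nT Ty N = n)
    (h : 3 * invCount f (algY q c f A) n ((qY q c).eval n) ≤ 2 ^ (n + (qY q c).eval n)) :
    (P0 c).eval n * (2 ^ n * invCount (gY f) A N (q.eval N)) ≤
      (n * 2 ^ n + (P0 c).eval n) * 2 ^ (N + q.eval N) := by
  classical
  have hT := (nT_spec Ty_zero le_Ty N).1
  rw [hn, Ty_eval] at hT
  set P := (P0 c).eval n with hP
  set G := (univ.filter fun x : Fin n → Bool => GoodY f A N (q.eval N) P x) with hG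
  have hGc : 2 * G.card ≤ 2 ^ n := by
    have := few_good (A := A) q c hn h
    convert this
  set AG := (univ.filter fun z : Fin N → Bool => ∀ i < n, xb n i z ∈ G) with hAG
  have h1 : AG.card * 2 ^ n ≤ 2 ^ N := by
    have := all_good hT G hGc
    convert this
  set V : ℕ → Finset ((Fin N → Bool) × (Fin (q.eval N) → Bool)) := fun i =>
    (univ.filter fun p : (Fin N → Bool) × (Fin (q.eval N) → Bool) =>
      InvY f A p.1 p.2 ∧ ¬ GoodY f A N (q.eval N) P (xb n i p.1)) with hV
  have h2 : invCount (gY f) A N (q.eval N) ≤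
      (∑ i ∈ Finset.range n, (V i).card) + AG.card * 2 ^ q.eval N := by
    unfold invCount
    calc _ ≤ (((Finset.range n).biUnion V) ∪
          (AG ×ˢ (univ : Finset (Fin (q.eval N) → Bool)))).card := by
          apply Finset.card_le_card
          intro p hp
          rw [Finset.mem_filter] at hp
          rw [Finset.mem_union, Finset.mem_biUnion]
          by_cases h : ∀ i < n, xb n i p.1 ∈ G
          · right
            rw [Finset.mem_product, hAG, Finset.mem_filter]
            exact ⟨⟨Finset.mem_univ _, h⟩, Finset.mem_univ _⟩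
          · left
            push Not at h
            obtain ⟨i, hi, hg⟩ := h
            refine ⟨i, Finset.mem_range.2 hi, ?_⟩
            rw [hV]
            simp only
            rw [Finset.mem_filter]
            refine ⟨Finset.mem_univ _, hp.2, fun hgood => hg ?_⟩
            rw [hG, Finset.mem_filter]
            exact ⟨Finset.mem_univ _, hgood⟩
      _ ≤ ((Finset.range n).biUnion V).card +
          (AG ×ˢ (univ : Finset (Fin (q.eval N) → Bool))).card := Finset.card_union_le _ _
      _ ≤ _ := by
          refine Nat.add_le_add Finset.card_biUnion_le ?_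
          rw [Finset.card_product, Finset.card_univ]
          simp
  have h3 : ∀ i ∈ Finset.range n, P * (2 ^ n * (V i).card) ≤ 2 ^ n * 2 ^ (N + q.eval N) := by
    intro i hi
    have := bad_block (f := f) (A := A) (q.eval N) P (Finset.mem_range.1 hi) hT
    convert this
  calc P * (2 ^ n * invCount (gY f) A N (q.eval N))
      ≤ P * (2 ^ n * ((∑ i ∈ Finset.range n, (V i).card) + AG.card * 2 ^ q.eval N)) :=
        Nat.mul_le_mul_left _ (Nat.mul_le_mul_left _ h2)
    _ = (∑ i ∈ Finset.range n, P * (2 ^ n * (V i).card)) +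
        P * ((AG.card * 2 ^ n) * 2 ^ q.eval N) := by
        rw [mul_add, mul_add, Finset.mul_sum, Finset.mul_sum]
        congr 1
        ring
    _ ≤ (∑ _i ∈ Finset.range n, 2 ^ n * 2 ^ (N + q.eval N)) +
        P * (2 ^ N * 2 ^ q.eval N) :=
        Nat.add_le_add (Finset.sum_le_sum h3)
          (Nat.mul_le_mul_left _ (Nat.mul_le_mul_right _ h1))
    _ = _ := by
        rw [Finset.sum_const, Finset.card_range, smul_eq_mul, ← pow_add]
        ring

/-- **Amplification.** -/
theorem yao {f : List Bool → List Bool} (hf : Vanishing f) : OneWay (gY f) := by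
  have hfp : NPC.Poly f := H622R2.poly_of_polyTime hf.1
  refine ⟨H622R2.polyTime_of_poly_list (poly_gY hfp), ?_⟩
  intro A hA q c
  have hAp : NPC.Poly A := H622R2.poly_of_polyTime hA
  have hal : PolyTime (algY q c f A) := H622R2.polyTime_of_poly_list (poly_algY q c hfp hAp)
  have h1 := hf.2 (algY q c f A) hal (qY q c) 3
  have htend := nT_tendsto Ty_zero le_Ty
  obtain ⟨d, hd⟩ := eval_le_pow (P0 c)
  have h2 := htend.eventually h1
  have h3 := htend.eventually hd
  have h4 := htend.eventually (pow_le_two_pow d)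
  have h5 := htend.eventually (eventually_ge_atTop 1)
  filter_upwards [h2, h3, h4, h5] with N h2 h3 h4 h5
  obtain ⟨n, hn⟩ : ∃ n, nT Ty N = n := ⟨_, rfl⟩
  rw [hn] at h2 h3 h4 h5
  have hlt := (nT_spec Ty_zero le_Ty N).2
  rw [hn] at hlt
  have key := yao_bound (A := A) q c hn h2
  set I := invCount (gY f) A N (q.eval N) with hI
  have hP := P0_eval c n
  set P := (P0 c).eval n with hPd
  have hP2 : P ≤ 2 ^ n := by omega
  have hNc : N ^ c ≤ (Ty.eval (n + 1)) ^ c := Nat.pow_le_pow_left hlt.le c
  have e1 : P * I ≤ (n + 1) * 2 ^ (N + q.eval N) := by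
    have : (P * I) * 2 ^ n ≤ ((n + 1) * 2 ^ (N + q.eval N)) * 2 ^ n := by
      calc (P * I) * 2 ^ n = P * (2 ^ n * I) := by ring
        _ ≤ (n * 2 ^ n + P) * 2 ^ (N + q.eval N) := key
        _ ≤ (n * 2 ^ n + 2 ^ n) * 2 ^ (N + q.eval N) :=
            Nat.mul_le_mul_right _ (Nat.add_le_add_left hP2 _)
        _ = ((n + 1) * 2 ^ (N + q.eval N)) * 2 ^ n := by ring
    exact Nat.le_of_mul_le_mul_right this (by positivity)
  rcases Nat.eq_zero_or_pos I with h0 | h0
  · rw [h0, Nat.zero_mul]
    positivity
  · have e2 : (n + 1) * (I * N ^ c) < (n + 1) * 2 ^ (N + q.eval N) := by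
      calc (n + 1) * (I * N ^ c) = ((n + 1) * N ^ c) * I := by ring
        _ ≤ ((n + 1) * (Ty.eval (n + 1)) ^ c) * I :=
            Nat.mul_le_mul_right _ (Nat.mul_le_mul_left _ hNc)
        _ < P * I := Nat.mul_lt_mul_of_pos_right (by omega) h0
        _ ≤ _ := e1
    exact Nat.lt_of_mul_lt_mul_left e2

end Pool.Agent.NPC.L5h57.OX
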